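import Pool.Agent.H54.TSG.CoreH

/-!
Two adaptive probes and a free header with almost `n log n` bits
(3SUM-Indexing cell probe lower bound, MP_e016b3_lc).
-/

namespace Pool.H66.TSH

open Finset Function Classical Pool.H54.TSUM Pool.H54.TSG

variable {n U S W : ℕ}

/-- labels through one vertex have few end points -/
theorem verts_card_touch (α : Vtx n) (l : List (Label n)) (h : ∀ g ∈ l, Touches α g) :
    (verts l).card ≤ l.length + 1 := by
  set other : Label n → Vtx n := fun g => if α = Sum.inl g.1 then Sum.inr g.2 else Sum.inl g.1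
    with hother
  have hsub : verts l ⊆ insert α (l.map other).toFinset := by
    intro β hβ
    rw [verts, mem_filter, dg_pos_iff] at hβ
    obtain ⟨g, hg, hβg⟩ := hβ.2
    rw [mem_insert, List.mem_toFinset, List.mem_map]
    by_cases hβα : β = α
    · exact Or.inl hβα
    · right
      refine ⟨g, hg, ?_⟩
      rcases h g hg with h1 | h1
      · have h2 : other g = Sum.inr g.2 := if_pos h1
        rcases hβg with h3 | h3
        · exact absurd (h3.trans h1.symm) hβα
        · rw [h2, h3]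
      · have h1' : α ≠ Sum.inl g.1 := by rw [h1]; simp
        have h2 : other g = Sum.inl g.1 := if_neg h1'
        rcases hβg with h3 | h3
        · rw [h2, h3]
        · exact absurd (h3.trans h1.symm) hβα
  refine (card_le_card hsub).trans ((card_insert_le _ _).trans ?_)
  refine Nat.succ_le_succ ((List.toFinset_card_le _).trans ?_)
  rw [List.length_map]

theorem seqSupp_card_touch {J : Type*} (Jf : Finset (Vtx n × J)) (m₀ : ℕ)
    (i : (_ : Vtx n × J) × List (Label n))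
    (hi : i ∈ seqI Jf (fun j => (univ : Finset (Label n)).filter (fun g => Touches j.1 g)) m₀) :
    (seqSupp i).card ≤ m₀ + 1 := by
  have h := (mem_filter.1 (mem_sigma.1 hi).2).1
  rw [mem_grow_const] at h
  have h2 := verts_card_touch i.1.1 i.2 (fun g hg => (mem_filter.1 (h.2 g hg)).2)
  rw [h.1] at h2
  exact h2

/-- labels that avoid a set of vertices -/
theorem avoid_sq (D : Finset (Vtx n)) (y : ℕ) (hD : D.card + y ≤ n) :
    y ^ 2 ≤ ((univ : Finset (Label n)).filter (fun g => Avoids D g)).card := by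
  set R := (univ : Finset (Fin n)).filter (fun a => Sum.inl a ∉ D) with hR
  set C := (univ : Finset (Fin n)).filter (fun b => Sum.inr b ∉ D) with hC
  have hRc : y ≤ R.card := by
    have h1 : R.card + ((univ : Finset (Fin n)).filter (fun a => ¬ Sum.inl a ∉ D)).card = n := by
      have := card_filter_add_card_filter_not (s := (univ : Finset (Fin n)))
        (fun a => Sum.inl a ∉ D)
      rw [card_univ, Fintype.card_fin] at this
      exact this
    have h2 : ((univ : Finset (Fin n)).filter (fun a => ¬ Sum.inl a ∉ D)).card ≤ D.card := by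
      refine card_le_card_of_injOn (fun a => Sum.inl a) ?_ ?_
      · intro a ha
        have := (mem_filter.1 (mem_coe.1 ha)).2
        exact mem_coe.2 (not_not.1 this)
      · intro a _ a' _ haa
        exact Sum.inl_injective haa
    omega
  have hCc : y ≤ C.card := by
    have h1 : C.card + ((univ : Finset (Fin n)).filter (fun a => ¬ Sum.inr a ∉ D)).card = n := by
      have := card_filter_add_card_filter_not (s := (univ : Finset (Fin n)))
        (fun a => Sum.inr a ∉ D)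
      rw [card_univ, Fintype.card_fin] at this
      exact this
    have h2 : ((univ : Finset (Fin n)).filter (fun a => ¬ Sum.inr a ∉ D)).card ≤ D.card := by
      refine card_le_card_of_injOn (fun a => Sum.inr a) ?_ ?_
      · intro a ha
        have := (mem_filter.1 (mem_coe.1 ha)).2
        exact mem_coe.2 (not_not.1 this)
      · intro a _ a' _ haa
        exact Sum.inr_injective haa
    omega
  have hsub : R ×ˢ C ⊆ (univ : Finset (Label n)).filter (fun g => Avoids D g) := by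
    intro g hg
    obtain ⟨h1, h2⟩ := mem_product.1 hg
    exact mem_filter.2 ⟨mem_univ _, (mem_filter.1 h1).2, (mem_filter.1 h2).2⟩
  refine le_trans ?_ (card_le_card hsub)
  rw [card_product, pow_two]
  exact Nat.mul_le_mul hRc hCc

/-- all good events for two probes -/
def GoodJ (P : Scheme S W) (K q p rv m₀ B B₄ : ℕ) (N : Fin S → Fin W) (A : Arr n U) : Prop :=
  Gb P 0 (n ^ 2) K q B N ∅ A ∧ Gc P 0 (n ^ 2) K q B N ∅ A ∧ GF P 0 (n ^ 2) K p B N ∅ A ∧
    Gd P rv m₀ 0 B₄ N A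

/-- The union bound over the good events. -/
theorem good_bound (P : Scheme S W) (K q p rv m₀ k v k₄ N₁ N₄ Qn : ℕ) (N : Fin S → Fin W)
    (hU : 0 < U) (hK : 0 < K) (hrv : 0 < rv)
    (hvq : 2 * q ≤ v) (hvp : 24 * p ≤ v)
    (hblocks : 2 * U ≤ rv * (4 * S))
    (hNb : N₁ * ((S * W) * ((n ^ 2) ^ q * (n ^ 2 * (S * W)) ^ q)) ≤ U ^ q * (K + 1) ^ q)
    (hNF : N₁ * ((((n ^ 2) ^ (4 * p)) ^ 3 * (9 * (2 * n) ^ 2)) *
      ((S * W) * (K ^ (4 * p) * (K ^ (4 * p) * (K ^ (4 * p) * (K ^ (4 * p) * (K ^ (4 * p) *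
        (n ^ 2 * n ^ 2)))))))) ≤ U ^ 2)
    (hNd : N₄ * ((2 * n * (5 * S)) * (n ^ m₀ * rv ^ m₀)) ≤ U ^ m₀)
    (hQ1 : Qn ≤ N₁ ^ k) (hQ4 : Qn ≤ N₄ ^ k₄) :
    Qn * ((univ : Finset (Arr n U)).filter
      (fun A => ¬ GoodJ P K q p rv m₀ (k * v) (k₄ * (m₀ + 1)) N A)).card ≤ 4 * U ^ (2 * n) := by
  have hcardσ : Fintype.card (Fin S × Fin W) = S * W := by
    rw [Fintype.card_prod, Fintype.card_fin, Fintype.card_fin]
  have hcardL : (univ : Finset (Label n)).card = n ^ 2 := by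
    rw [card_univ, Fintype.card_prod, Fintype.card_fin, pow_two]
  -- event (b)
  have hb : Qn * ((univ : Finset (Arr n U)).filter
      (fun A => ¬ Gb P 0 (n ^ 2) K q (k * v) N ∅ A)).card ≤ U ^ (2 * n) := by
    refine (Nat.mul_le_mul_right _ hQ1).trans ?_
    refine pack _ _ _ N₁ v hU (fun i hi => (seqSupp_card _ _ _ i hi).trans hvq)
      (fun i A B h => seqEv_dep _ i A B h) ?_ k
    refine seq_sum _ _ _ q (n ^ 2) (n ^ 2 * (S * W)) (K + 1) N₁ (by omega) hU
      (fun j _ => hcardL.le) (fun j _ => ?_) ?_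
    · have := heavyL_card U (n ^ 2) (Zh P U 0 N ∅) K j
      rw [hcardσ] at this
      exact this
    · rw [card_univ, hcardσ]
      exact hNb
  -- event (c)
  have hc : Qn * ((univ : Finset (Arr n U)).filter
      (fun A => ¬ Gc P 0 (n ^ 2) K q (k * v) N ∅ A)).card ≤ U ^ (2 * n) := by
    refine (Nat.mul_le_mul_right _ hQ1).trans ?_
    refine pack _ _ _ N₁ v hU (fun i hi => (seqSupp_card _ _ _ i hi).trans hvq)
      (fun i A B h => seqEv_dep _ i A B h) ?_ k
    refine seq_sum _ _ _ q (n ^ 2) (n ^ 2 * (S * W)) (K + 1) N₁ (by omega) hU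
      (fun j _ => hcardL.le) (fun j _ => ?_) ?_
    · have := heavyL_card U (n ^ 2) (fun a b => Zh P U 0 N ∅ b a) K j
      rw [hcardσ] at this
      exact this
    · rw [card_univ, hcardσ]
      exact hNb
  -- event (F)
  have hF : Qn * ((univ : Finset (Arr n U)).filter
      (fun A => ¬ GF P 0 (n ^ 2) K p (k * v) N ∅ A)).card ≤ U ^ (2 * n) := by
    refine (Nat.mul_le_mul_right _ hQ1).trans ?_
    refine pack _ _ _ N₁ v hU
      (fun i hi => (confSupp_card (4 * p) i hi).trans (by omega))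
      (fun i A B h => confEv_dep _ i A B h) ?_ k
    refine conf_sum _ K (n ^ 2) (4 * p) N₁ hK hU (fun z s => relL_right _ _ _ _ _)
      (fun z t => relL_left _ _ _ _ _) (fun s t => relL_z _ _ _ _ _ _) ?_
    rw [hcardσ]
    exact hNF
  -- event (d)
  have hd : Qn * ((univ : Finset (Arr n U)).filter
      (fun A => ¬ Gd P rv m₀ 0 (k₄ * (m₀ + 1)) N A)).card ≤ U ^ (2 * n) := by
    refine (Nat.mul_le_mul_right _ hQ4).trans ?_
    refine pack _ _ _ N₄ (m₀ + 1) hU (fun i hi => seqSupp_card_touch _ m₀ i hi)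
      (fun i A B h => seqEv_dep _ i A B h) ?_ k₄
    refine seq_sum _ _ _ m₀ n rv 1 N₄ Nat.one_pos hU
      (fun j _ => (card_touches j.1).le) (fun j _ => ?_) ?_
    · rw [mul_one]
      exact ck_fibre _ _ rv hrv j.2
    · rw [one_pow, mul_one]
      refine le_trans (Nat.mul_le_mul_left _ (Nat.mul_le_mul_right _ ?_)) hNd
      rw [card_product, card_univ, Fintype.card_sum, Fintype.card_fin, ← two_mul]
      refine Nat.mul_le_mul_left _ ?_
      have h1 := ck_image (range (2 * U)) (cl P N 0) rv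
      rw [card_range] at h1
      have h2 : ((range (2 * U)).image (cl P N 0)).card ≤ S := by
        refine (card_le_univ _).trans ?_
        rw [Fintype.card_fin]
      have h3 : rv * ((range (2 * U)).image (vblk P U rv 0 N)).card ≤ rv * (5 * S) := by
        calc _ ≤ 2 * U + rv * ((range (2 * U)).image (cl P N 0)).card := h1
          _ ≤ rv * (4 * S) + rv * S := Nat.add_le_add hblocks (Nat.mul_le_mul_left _ h2)
          _ = rv * (5 * S) := by ring
      exact Nat.le_of_mul_le_mul_left h3 hrv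
  -- union
  have hsub : (univ : Finset (Arr n U)).filter
      (fun A => ¬ GoodJ P K q p rv m₀ (k * v) (k₄ * (m₀ + 1)) N A) ⊆
      ((univ : Finset (Arr n U)).filter (fun A => ¬ Gb P 0 (n ^ 2) K q (k * v) N ∅ A)) ∪
      (((univ : Finset (Arr n U)).filter (fun A => ¬ Gc P 0 (n ^ 2) K q (k * v) N ∅ A)) ∪
      (((univ : Finset (Arr n U)).filter (fun A => ¬ GF P 0 (n ^ 2) K p (k * v) N ∅ A)) ∪
      ((univ : Finset (Arr n U)).filter
        (fun A => ¬ Gd P rv m₀ 0 (k₄ * (m₀ + 1)) N A)))) := by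
    intro A hA
    have hA' := (mem_filter.1 hA).2
    rw [mem_union, mem_union, mem_union]
    by_cases h1 : Gb P 0 (n ^ 2) K q (k * v) N ∅ A
    · by_cases h2 : Gc P 0 (n ^ 2) K q (k * v) N ∅ A
      · by_cases h3 : GF P 0 (n ^ 2) K p (k * v) N ∅ A
        · right; right; right
          exact mem_filter.2 ⟨mem_univ _, fun h4 => hA' ⟨h1, h2, h3, h4⟩⟩
        · exact Or.inr (Or.inr (Or.inl (mem_filter.2 ⟨mem_univ _, h3⟩)))
      · exact Or.inr (Or.inl (mem_filter.2 ⟨mem_univ _, h2⟩))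
    · exact Or.inl (mem_filter.2 ⟨mem_univ _, h1⟩)
  have hcard := card_le_card hsub
  have hcard2 := hcard.trans ((card_union_le _ _).trans (Nat.add_le_add_left
    ((card_union_le _ _).trans (Nat.add_le_add_left (card_union_le _ _) _)) _))
  refine (Nat.mul_le_mul_left _ hcard2).trans ?_
  rw [Nat.mul_add, Nat.mul_add, Nat.mul_add]
  omega

/-- The contradiction for a good array. -/
theorem coreB (P : Scheme S W) (A : Arr n U) (M : Fin S → Fin W)
    (hM : CorrectT P (0 + 2) A M) (N : Fin S → Fin W)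
    (K q p m₀ rv ω y B B₄ : ℕ)
    (hA : GoodJ P K q p rv m₀ B B₄ N A)
    (hS : 0 < S) (hp : 0 < p) (hrv : 0 < rv) (hblocks : 2 * U ≤ rv * (4 * S))
    (hB : 3 * B + B₄ + y ≤ n)
    (hω : S * ω ≤ y ^ 2)
    (hω1 : 4 * (q - 1) ^ 2 ≤ ω) (hω2 : 40 ≤ ω)
    (hnum : (80 * (2 * (12 * p) * m₀ + (12 * p) ^ 2 + 1)) ^ (12 * p) * (216 * S ^ 3) < ω ^ p) :
    False := by
  obtain ⟨hgb, hgc, hgF, hgd⟩ := hA
  set Qh : Finset (Fin S) := ∅ with hQh
  have hMN : ∀ c ∈ Qh, N c = M c := fun c hc => absurd hc (notMem_empty c)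
  obtain ⟨D1, hD1, hgood1⟩ := good_sq _ _ q B A hgb
  obtain ⟨D2, hD2, hgood2⟩ := good_sq _ _ q B A hgc
  obtain ⟨D3, hD3, hgood3⟩ := good_conf _ (4 * p) B A hgF
  obtain ⟨D4, hD4, hgood4⟩ := gd_use P rv m₀ 0 B₄ N A hgd
  set D := D1 ∪ (D2 ∪ (D3 ∪ D4)) with hD
  have hDcard : D.card ≤ 3 * B + B₄ := by
    have e1 := card_union_le D1 (D2 ∪ (D3 ∪ D4))
    have e2 := card_union_le D2 (D3 ∪ D4)
    have e3 := card_union_le D3 D4
    rw [hD]
    omega
  set G₀ := (univ : Finset (Label n)).filter (fun g => Avoids D g) with hG₀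
  have hG₀y : y ^ 2 ≤ G₀.card := avoid_sq D y (by omega)
  have hSω : S * ω ≤ G₀.card := hω.trans hG₀y
  -- parameters of the final stage
  set r := G₀.card / S + 1 with hr
  set D' := r / 40 with hD'
  have hωr : ω ≤ r := by
    have h1 : ω ≤ G₀.card / S := by
      rw [Nat.le_div_iff_mul_le hS, mul_comm]; exact hSω
    omega
  have hD'pos : 0 < D' := Nat.div_pos (by omega) (by norm_num)
  have hrS : G₀.card ≤ r * S := by
    have := Nat.lt_div_mul_add (a := G₀.card) hS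
    rw [hr, Nat.add_mul, Nat.one_mul]; exact this.le
  have hSG : S ≤ G₀.card := le_trans (Nat.le_mul_of_pos_right _ (by omega)) hSω
  have hrS2 : r * S ≤ 2 * G₀.card := by
    have := Nat.div_mul_le_self G₀.card S
    rw [hr, Nat.add_mul, Nat.one_mul]; omega
  have hDS : (D' - 1) * (16 * S) < G₀.card := by
    have h1 : 40 * D' ≤ r := Nat.mul_div_le _ _
    have h2 : 40 * D' * S ≤ r * S := Nat.mul_le_mul_right _ h1
    have h3 : (D' - 1) * (16 * S) < D' * (16 * S) :=
      Nat.mul_lt_mul_of_pos_right (by omega) (by omega)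
    have h4 : D' * (16 * S) = 16 * (D' * S) := by ring
    have h5 : 40 * D' * S = 40 * (D' * S) := by ring
    omega
  have hfinal : ((2 * (12 * p) * m₀ + (12 * p) ^ 2 + 1) * r) ^ (12 * p) * (6 * S) ^ 3 <
      r ^ p * D' ^ (12 * p) := by
    set C₂ := 2 * (12 * p) * m₀ + (12 * p) ^ 2 + 1 with hC₂
    have hr80 : r ≤ 80 * D' := by omega
    have h1 : (C₂ * r) ^ (12 * p) ≤ (80 * C₂) ^ (12 * p) * D' ^ (12 * p) := by
      rw [← mul_pow]
      refine Nat.pow_le_pow_left ?_ _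
      calc C₂ * r ≤ C₂ * (80 * D') := Nat.mul_le_mul_left _ hr80
        _ = 80 * C₂ * D' := by ring
    have h2 : (6 * S) ^ 3 = 216 * S ^ 3 := by ring
    have h3 : ω ^ p ≤ r ^ p := Nat.pow_le_pow_left hωr _
    calc (C₂ * r) ^ (12 * p) * (6 * S) ^ 3
        ≤ ((80 * C₂) ^ (12 * p) * D' ^ (12 * p)) * (216 * S ^ 3) := by
          rw [h2]; exact Nat.mul_le_mul_right _ h1
      _ = ((80 * C₂) ^ (12 * p) * (216 * S ^ 3)) * D' ^ (12 * p) := by ring
      _ < ω ^ p * D' ^ (12 * p) := Nat.mul_lt_mul_of_pos_right hnum (Nat.pow_pos hD'pos)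
      _ ≤ r ^ p * D' ^ (12 * p) := Nat.mul_le_mul_right _ h3
  -- properties of the labels
  set iL : Label n → Fin S := fun g => cl P N 0 (zv A g) with hiL
  set jR : Label n → Fin S := fun g => P.addr (zv A g) (M (iL g) :: P.reads N (zv A g) 0)
    with hjR
  have hGres : ∀ g ∈ G₀, Res P M Qh 0 (zv A g) := fun g _ i hi => absurd hi (by omega)
  have hz : ∀ g ∈ G₀, zv A g ∈ Zh P U 0 N Qh (iL g, M (iL g)) (jR g, M (jR g)) := by
    intro g hg
    have h1 := hGres g hg
    have h6 := reads_eq P M N Qh hMN 0 _ h1 0 le_rfl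
    have h7 : cl P M 0 (zv A g) = iL g := (cl_eq P M N Qh hMN 0 _ h1 0 le_rfl).symm
    have h8 : P.reads M (zv A g) (0 + 1) = M (iL g) :: P.reads M (zv A g) 0 := by
      show M (P.addr (zv A g) (P.reads M (zv A g) 0)) :: P.reads M (zv A g) 0 = _
      have : P.addr (zv A g) (P.reads M (zv A g) 0) = iL g := h7
      rw [this]
    have h9 : P.reads M (zv A g) (0 + 2) =
        M (jR g) :: M (iL g) :: P.reads M (zv A g) 0 := by
      show M (P.addr (zv A g) (P.reads M (zv A g) (0 + 1))) :: P.reads M (zv A g) (0 + 1) = _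
      rw [h8]
      have : P.addr (zv A g) (M (iL g) :: P.reads M (zv A g) 0) = jR g := by
        rw [← h6]
      rw [this]
    have h10 : P.run (0 + 2) M (zv A g) = true := (hM _).2 ⟨g, rfl⟩
    unfold Scheme.run at h10
    rw [h9, ← h6] at h10
    exact mem_filter.2 ⟨mem_range.2 (zv_lt A g), (res_iff P M N Qh hMN 0 _).2 h1, rfl, rfl, h10⟩
  set γ : Label n → Fin S × ℕ := fun g => vblk P U rv 0 N (zv A g) with hγdef
  have hγi : ∀ g g', γ g = γ g' → iL g = iL g' := fun g g' hgg => congrArg Prod.fst hgg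
  have hγS : (G₀.image γ).card ≤ 5 * S := by
    have h1 := ck_image (range (2 * U)) (cl P N 0) rv
    rw [card_range] at h1
    have h2 : ((range (2 * U)).image (cl P N 0)).card ≤ S := by
      refine (card_le_univ _).trans ?_
      rw [Fintype.card_fin]
    have h3 : rv * ((range (2 * U)).image (vblk P U rv 0 N)).card ≤ rv * (5 * S) := by
      calc _ ≤ 2 * U + rv * ((range (2 * U)).image (cl P N 0)).card := h1
        _ ≤ rv * (4 * S) + rv * S := Nat.add_le_add hblocks (Nat.mul_le_mul_left _ h2)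
        _ = rv * (5 * S) := by ring
    refine le_trans (card_le_card ?_) (Nat.le_of_mul_le_mul_left h3 hrv)
    intro x hx
    obtain ⟨g, _, rfl⟩ := mem_image.1 hx
    exact mem_image_of_mem _ (mem_range.2 (zv_lt A g))
  have hav : ∀ g ∈ G₀, Avoids D1 g ∧ Avoids D2 g ∧ Avoids D3 g ∧ Avoids D4 g := by
    intro g hg
    obtain ⟨h1, h2⟩ := (mem_filter.1 hg).2
    rw [hD, mem_union, mem_union, mem_union] at h1 h2
    push Not at h1 h2
    exact ⟨⟨h1.1, h2.1⟩, ⟨h1.2.1, h2.2.1⟩, ⟨h1.2.2.1, h2.2.2.1⟩, ⟨h1.2.2.2, h2.2.2.2⟩⟩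
  obtain ⟨w, hwlen, hwG, hpriv, hrun⟩ := final_stage A M (n ^ 2) (Zh P U 0 N Qh) G₀ iL jR hz
    (fun g _ => zh_card P A M N 0 Qh hM hMN _ _) γ hγi hγS K q p m₀ r D' hp
    (Nat.succ_pos _) hD'pos
    (fun s => by
      refine le_trans (card_le_card ?_) (hgood1 s (mem_univ _))
      intro g hg
      obtain ⟨h1, h2⟩ := mem_filter.1 hg
      exact mem_filter.2 ⟨mem_univ _, (hav g h1).1, h2⟩)
    (fun s => by
      refine le_trans (card_le_card ?_) (hgood2 s (mem_univ _))
      intro g hg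
      obtain ⟨h1, h2⟩ := mem_filter.1 hg
      exact mem_filter.2 ⟨mem_univ _, (hav g h1).2.1, h2⟩)
    (fun α x => by
      refine le_trans (card_le_card ?_) (hgood4 α x)
      intro g hg
      obtain ⟨h1, h2, h3⟩ := mem_filter.1 hg
      exact mem_filter.2 ⟨mem_univ _, (hav g h1).2.2.2, h3,
        mem_filter.2 ⟨mem_range.2 (zv_lt A g), h2⟩⟩)
    (by
      calc 2 * (2 * (S * (q - 1) ^ 2)) = S * (4 * (q - 1) ^ 2) := by ring
        _ ≤ S * ω := Nat.mul_le_mul_left _ hω1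
        _ ≤ G₀.card := hSω)
    hrS hDS hfinal
  exact hgood3 w hwlen (fun i g hg => (hav g (hwG i g hg)).2.2.1) hpriv hrun


/-- No small family of schemes with two probes solves the problem for all arrays. -/
theorem coreJ {Hd : ℕ} (P : Fin Hd → Scheme S W)
    (hP : ∀ A : Arr n U, ∃ (hd : Fin Hd) (M : Fin S → Fin W), CorrectT (P hd) 2 A M)
    (K q p m₀ rv ω y k v k₄ N₁ N₄ Qn : ℕ)
    (hU : 0 < U) (hK : 0 < K) (hW : 0 < W) (hS : 0 < S) (hp : 0 < p) (hrv : 0 < rv)
    (hvq : 2 * q ≤ v) (hvp : 24 * p ≤ v)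
    (hblocks : 2 * U ≤ rv * (4 * S))
    (hB : 3 * (k * v) + k₄ * (m₀ + 1) + y ≤ n)
    (hω : S * ω ≤ y ^ 2)
    (hω1 : 4 * (q - 1) ^ 2 ≤ ω) (hω2 : 40 ≤ ω)
    (hnum : (80 * (2 * (12 * p) * m₀ + (12 * p) ^ 2 + 1)) ^ (12 * p) * (216 * S ^ 3) < ω ^ p)
    (hNb : N₁ * ((S * W) * ((n ^ 2) ^ q * (n ^ 2 * (S * W)) ^ q)) ≤ U ^ q * (K + 1) ^ q)
    (hNF : N₁ * ((((n ^ 2) ^ (4 * p)) ^ 3 * (9 * (2 * n) ^ 2)) *
      ((S * W) * (K ^ (4 * p) * (K ^ (4 * p) * (K ^ (4 * p) * (K ^ (4 * p) * (K ^ (4 * p) *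
        (n ^ 2 * n ^ 2)))))))) ≤ U ^ 2)
    (hNd : N₄ * ((2 * n * (5 * S)) * (n ^ m₀ * rv ^ m₀)) ≤ U ^ m₀)
    (hQ1 : Qn ≤ N₁ ^ k) (hQ4 : Qn ≤ N₄ ^ k₄) (hHd : Hd * 4 < Qn) : False := by
  have w₀ : Fin W := ⟨0, hW⟩
  obtain ⟨A, hA⟩ := exists_good (n := n) (U := U)
    (fun (x : Fin Hd) A =>
      GoodJ (P x) K q p rv m₀ (k * v) (k₄ * (m₀ + 1)) (fun _ => w₀) A)
    Qn 4 hU
    (fun x => good_bound (P x) K q p rv m₀ k v k₄ N₁ N₄ Qn (fun _ => w₀) hU hK hrv
      hvq hvp hblocks hNb hNF hNd hQ1 hQ4)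
    (by rw [Fintype.card_fin]; exact hHd)
  obtain ⟨hd, M, hM⟩ := hP A
  exact coreB (P hd) A M hM (fun _ => w₀) K q p m₀ rv ω y (k * v) (k₄ * (m₀ + 1)) (hA hd)
    hS hp hrv hblocks hB hω hω1 hω2 hnum

end Pool.H66.TSH
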