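import Pool.Agent.H54.TSUM.Counting

/-!
Random functions have small loads (3SUM-Indexing with a free index, MP_e016b3_lc).
-/

namespace Pool.H66.TSH

open Finset Function Classical Pool.H54.TSUM

/-- number of residues in a class -/
theorem mod_class_card (K M c : ℕ) (hMK : M ∣ K) :
    ((univ : Finset (Fin K)).filter (fun s => s.val % M = c)).card ≤ K / M := by
  rcases Nat.eq_zero_or_pos M with hM | hM
  · subst hM
    have hK : K = 0 := Nat.eq_zero_of_zero_dvd hMK
    subst hK
    simp
  have h : ((range (K / M)).card) = K / M := card_range _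
  rw [← h]
  refine card_le_card_of_injOn (fun s => s.val / M) ?_ ?_
  · intro s hs
    refine mem_coe.2 (mem_range.2 ?_)
    have h1 : s.val < K := s.isLt
    show s.val / M < K / M
    exact Nat.div_lt_of_lt_mul (by rw [Nat.mul_div_cancel' hMK]; exact h1)
  · intro s hs s' hs' h2
    have e1 := (mem_filter.1 (mem_coe.1 hs)).2
    have e2 := (mem_filter.1 (mem_coe.1 hs')).2
    have h3 : s.val / M = s'.val / M := h2
    have e3 := Nat.div_add_mod s.val M
    have e4 := Nat.div_add_mod s'.val M
    rw [e1, h3] at e3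
    rw [e2] at e4
    exact Fin.ext (e3.symm.trans e4)

theorem const_count (V K M : ℕ) (hM : 0 < M) (hMK : M ∣ K) (hK : 0 < K) (t₀ : Fin V)
    (T : Finset (Fin V)) (ht₀ : t₀ ∉ T) :
    ((univ : Finset (Fin V → Fin K)).filter
      (fun g => ∀ t ∈ T, (g t).val % M = (g t₀).val % M)).card * M ^ T.card ≤ K ^ V := by
  induction T using Finset.induction_on with
  | empty =>
    rw [card_empty, pow_zero, mul_one]
    refine (card_filter_le _ _).trans ?_
    rw [card_univ, Fintype.card_fun, Fintype.card_fin, Fintype.card_fin]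
  | insert a T haT ih =>
    rw [mem_insert, not_or] at ht₀
    have ih' := ih ht₀.2
    set X := (univ : Finset (Fin V → Fin K)).filter
      (fun g => ∀ t ∈ insert a T, (g t).val % M = (g t₀).val % M) with hX
    set Y := (univ : Finset (Fin V → Fin K)).filter
      (fun g => ∀ t ∈ T, (g t).val % M = (g t₀).val % M) with hY
    have hXY : X ⊆ Y := by
      intro g hg
      rw [hX, mem_filter] at hg
      rw [hY, mem_filter]
      exact ⟨mem_univ _, fun t ht => hg.2 t (mem_insert_of_mem ht)⟩
    have hKM : 0 < K / M := Nat.div_pos (Nat.le_of_dvd hK hMK) hM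
    have key : X.card * K ≤ Y.card * (K / M) := by
      refine one_coord a X Y hXY ?_ (K / M) ?_
      · intro g hg s
        rw [hY, mem_filter] at hg ⊢
        refine ⟨mem_univ _, fun t ht => ?_⟩
        have h1 : t ≠ a := fun h => haT (h ▸ ht)
        rw [update_of_ne h1, update_of_ne ht₀.1]
        exact hg.2 t ht
      · intro g
        refine le_trans (card_le_card ?_) (mod_class_card K M ((g t₀).val % M) hMK)
        intro s hs
        rw [mem_filter, hX, mem_filter] at hs
        rw [mem_filter]
        refine ⟨mem_univ _, ?_⟩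
        have h1 := hs.2.2 a (mem_insert_self _ _)
        rw [update_self, update_of_ne ht₀.1] at h1
        exact h1
    have key2 : X.card * M ≤ Y.card := by
      have h1 : (X.card * M) * (K / M) ≤ Y.card * (K / M) := by
        calc (X.card * M) * (K / M) = X.card * (M * (K / M)) := by ring
          _ = X.card * K := by rw [Nat.mul_div_cancel' hMK]
          _ ≤ _ := key
      exact Nat.le_of_mul_le_mul_right h1 hKM
    rw [card_insert_of_notMem haT]
    calc X.card * M ^ (T.card + 1) = (X.card * M) * M ^ T.card := by rw [pow_succ]; ring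
      _ ≤ Y.card * M ^ T.card := Nat.mul_le_mul_right _ key2
      _ ≤ K ^ V := ih'

/-- one row -/
theorem row_bad (V K M L : ℕ) (hM : 0 < M) (hMK : M ∣ K) (hK : 0 < K) (Q : Finset (Fin V)) :
    ((univ : Finset (Fin V → Fin K)).filter
      (fun g => ∃ c, L < (Q.filter (fun z => (g z).val % M = c)).card)).card * M ^ L ≤
      Q.card ^ (L + 1) * K ^ V := by
  have hsub : (univ : Finset (Fin V → Fin K)).filter
      (fun g => ∃ c, L < (Q.filter (fun z => (g z).val % M = c)).card) ⊆
      (powersetCard (L + 1) Q).biUnion (fun T => (univ : Finset (Fin V → Fin K)).filter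
        (fun g => ∃ t₀ ∈ T, ∀ t ∈ T.erase t₀, (g t).val % M = (g t₀).val % M)) := by
    intro g hg
    obtain ⟨c, hc⟩ := (mem_filter.1 hg).2
    obtain ⟨T, hT, hTc⟩ := exists_subset_card_eq (Nat.succ_le_of_lt hc)
    rw [mem_biUnion]
    refine ⟨T, mem_powersetCard.2 ⟨hT.trans (filter_subset _ _), hTc⟩, mem_filter.2
      ⟨mem_univ _, ?_⟩⟩
    have hne : T.Nonempty := by
      rw [← card_pos, hTc]; omega
    obtain ⟨t₀, ht₀⟩ := hne
    refine ⟨t₀, ht₀, fun t ht => ?_⟩
    rw [(mem_filter.1 (hT (mem_of_mem_erase ht))).2, (mem_filter.1 (hT ht₀)).2]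
  have h1 : ∀ T ∈ powersetCard (L + 1) Q, ((univ : Finset (Fin V → Fin K)).filter
        (fun g => ∃ t₀ ∈ T, ∀ t ∈ T.erase t₀, (g t).val % M = (g t₀).val % M)).card * M ^ L
        ≤ K ^ V := by
    intro T hT
    obtain ⟨_, hTc⟩ := mem_powersetCard.1 hT
    have hne : T.Nonempty := by
      rw [← card_pos, hTc]; omega
    obtain ⟨t₁, ht₁⟩ := hne
    have h2 := const_count V K M hM hMK hK t₁ (T.erase t₁) (notMem_erase _ _)
    rw [card_erase_of_mem ht₁, hTc, Nat.add_sub_cancel] at h2
    refine le_trans (Nat.mul_le_mul_right _ (card_le_card ?_)) h2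
    intro g hg
    obtain ⟨t₀, ht₀, h3⟩ := (mem_filter.1 hg).2
    refine mem_filter.2 ⟨mem_univ _, fun t ht => ?_⟩
    have h4 : ∀ t ∈ T, (g t).val % M = (g t₀).val % M := by
      intro t ht
      by_cases he : t = t₀
      · rw [he]
      · exact h3 t (mem_erase.2 ⟨he, ht⟩)
    rw [h4 t (mem_of_mem_erase ht), h4 t₁ ht₁]
  calc _ ≤ (∑ T ∈ powersetCard (L + 1) Q, ((univ : Finset (Fin V → Fin K)).filter
        (fun g => ∃ t₀ ∈ T, ∀ t ∈ T.erase t₀, (g t).val % M = (g t₀).val % M)).card) * M ^ L :=
        Nat.mul_le_mul_right _ ((card_le_card hsub).trans card_biUnion_le)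
    _ = ∑ T ∈ powersetCard (L + 1) Q, ((univ : Finset (Fin V → Fin K)).filter
        (fun g => ∃ t₀ ∈ T, ∀ t ∈ T.erase t₀, (g t).val % M = (g t₀).val % M)).card * M ^ L := by
        rw [sum_mul]
    _ ≤ ∑ T ∈ powersetCard (L + 1) Q, K ^ V := sum_le_sum h1
    _ = Q.card.choose (L + 1) * K ^ V := by rw [sum_const, smul_eq_mul, card_powersetCard]
    _ ≤ Q.card ^ (L + 1) * K ^ V := Nat.mul_le_mul_right _ (Nat.choose_le_pow _ _)

/-- the function `g` has a heavy cell -/
def HeavyCell {V n : ℕ} {K : ℕ} (L : ℕ) (Q : Finset (Fin V)) (row : Fin V → Fin n)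
    (M : Fin n → ℕ) (g : Fin V → Fin K) : Prop :=
  ∃ r c, L < (Q.filter (fun z => row z = r ∧ (g z).val % M r = c)).card

theorem load (V n K L B₀ : ℕ) (hK : 0 < K) (hB₀ : 0 < B₀) (Q : Finset (Fin V))
    (row : Fin V → Fin n) (M : Fin n → ℕ) (hM : ∀ r, 0 < M r) (hMK : ∀ r, M r ∣ K)
    (hMB : ∀ r, (Q.filter (fun z => row z = r)).card * B₀ ≤ M r)
    (hQ : 2 * Q.card ≤ B₀ ^ L) :
    2 * ((univ : Finset (Fin V → Fin K)).filter (fun g => HeavyCell L Q row M g)).card
      ≤ K ^ V := by
  have hsub : (univ : Finset (Fin V → Fin K)).filter (fun g => HeavyCell L Q row M g) ⊆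
      (univ : Finset (Fin n)).biUnion (fun r => (univ : Finset (Fin V → Fin K)).filter
        (fun g => ∃ c, L < ((Q.filter (fun z => row z = r)).filter
          (fun z => (g z).val % M r = c)).card)) := by
    intro g hg
    obtain ⟨r, c, h⟩ := (mem_filter.1 hg).2
    rw [mem_biUnion]
    refine ⟨r, mem_univ _, mem_filter.2 ⟨mem_univ _, c, ?_⟩⟩
    rw [filter_filter]
    exact h
  have h1 : ∀ r, ((univ : Finset (Fin V → Fin K)).filter
        (fun g => ∃ c, L < ((Q.filter (fun z => row z = r)).filter
          (fun z => (g z).val % M r = c)).card)).card * B₀ ^ L ≤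
        (Q.filter (fun z => row z = r)).card * K ^ V := by
    intro r
    set q := (Q.filter (fun z => row z = r)).card with hq
    rcases Nat.eq_zero_or_pos q with h0 | h0
    · have he : (univ : Finset (Fin V → Fin K)).filter
        (fun g => ∃ c, L < ((Q.filter (fun z => row z = r)).filter
          (fun z => (g z).val % M r = c)).card) = ∅ := by
        rw [filter_eq_empty_iff]
        rintro g _ ⟨c, hc⟩
        have h2 := card_filter_le (Q.filter (fun z => row z = r)) (fun z => (g z).val % M r = c)
        omega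
      rw [he, card_empty]
      omega
    · have h2 := row_bad V K (M r) L (hM r) (hMK r) hK (Q.filter (fun z => row z = r))
      rw [← hq] at h2
      have h3 : (q * B₀) ^ L ≤ M r ^ L := Nat.pow_le_pow_left (hMB r) L
      have h4 : q ^ L * (((univ : Finset (Fin V → Fin K)).filter
        (fun g => ∃ c, L < ((Q.filter (fun z => row z = r)).filter
          (fun z => (g z).val % M r = c)).card)).card * B₀ ^ L) ≤ q ^ L * (q * K ^ V) := by
        calc _ = ((univ : Finset (Fin V → Fin K)).filter
            (fun g => ∃ c, L < ((Q.filter (fun z => row z = r)).filter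
            (fun z => (g z).val % M r = c)).card)).card * (q * B₀) ^ L := by
              rw [mul_pow]; ring
          _ ≤ _ * M r ^ L := Nat.mul_le_mul_left _ h3
          _ ≤ q ^ (L + 1) * K ^ V := h2
          _ = q ^ L * (q * K ^ V) := by rw [pow_succ]; ring
      exact Nat.le_of_mul_le_mul_left h4 (Nat.pow_pos h0)
  have h2 : ((univ : Finset (Fin V → Fin K)).filter (fun g => HeavyCell L Q row M g)).card *
      B₀ ^ L ≤ Q.card * K ^ V := by
    calc _ ≤ (∑ r : Fin n, ((univ : Finset (Fin V → Fin K)).filter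
        (fun g => ∃ c, L < ((Q.filter (fun z => row z = r)).filter
          (fun z => (g z).val % M r = c)).card)).card) * B₀ ^ L :=
          Nat.mul_le_mul_right _ ((card_le_card hsub).trans card_biUnion_le)
      _ = ∑ r : Fin n, ((univ : Finset (Fin V → Fin K)).filter
        (fun g => ∃ c, L < ((Q.filter (fun z => row z = r)).filter
          (fun z => (g z).val % M r = c)).card)).card * B₀ ^ L := by rw [sum_mul]
      _ ≤ ∑ r : Fin n, (Q.filter (fun z => row z = r)).card * K ^ V :=
          sum_le_sum (fun r _ => h1 r)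
      _ = Q.card * K ^ V := by
          rw [← sum_mul, ← card_eq_sum_card_fiberwise (f := row)
            (fun x _ => mem_coe.2 (mem_univ _))]
  have h3 : B₀ ^ L * (2 * ((univ : Finset (Fin V → Fin K)).filter
      (fun g => HeavyCell L Q row M g)).card) ≤ B₀ ^ L * K ^ V := by
    calc _ = 2 * (((univ : Finset (Fin V → Fin K)).filter
          (fun g => HeavyCell L Q row M g)).card * B₀ ^ L) := by ring
      _ ≤ 2 * (Q.card * K ^ V) := Nat.mul_le_mul_left _ h2
      _ = (2 * Q.card) * K ^ V := by ring
      _ ≤ B₀ ^ L * K ^ V := Nat.mul_le_mul_right _ hQ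
  exact Nat.le_of_mul_le_mul_left h3 (Nat.pow_pos hB₀)

/-- a small family that contains a good member for every situation -/
theorem family {Ω G : Type*} [Fintype Ω] [Fintype G] (Bad : Ω → G → Prop)
    (h : ∀ ω, 2 * ((univ : Finset G).filter (fun g => Bad ω g)).card ≤ Fintype.card G)
    (F : ℕ) (hF : Fintype.card Ω < 2 ^ F) (hG : 0 < Fintype.card G) :
    ∃ f : Fin F → G, ∀ ω, ∃ i, ¬ Bad ω (f i) := by
  by_contra hcon
  push Not at hcon
  have hcov : (univ : Finset (Fin F → G)) ⊆ (univ : Finset Ω).biUnion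
      (fun ω => Fintype.piFinset (fun _ : Fin F => (univ : Finset G).filter (fun g => Bad ω g))) := by
    intro f _
    obtain ⟨ω, hω⟩ := hcon f
    rw [mem_biUnion]
    refine ⟨ω, mem_univ _, ?_⟩
    rw [Fintype.mem_piFinset]
    exact fun i => mem_filter.2 ⟨mem_univ _, hω i⟩
  have h1 := (card_le_card hcov).trans card_biUnion_le
  rw [card_univ, Fintype.card_fun, Fintype.card_fin] at h1
  have h2 : 2 ^ F * Fintype.card G ^ F ≤ Fintype.card Ω * Fintype.card G ^ F := by
    calc 2 ^ F * Fintype.card G ^ F ≤ 2 ^ F * ∑ ω : Ω, (Fintype.piFinset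
          (fun _ : Fin F => (univ : Finset G).filter (fun g => Bad ω g))).card :=
          Nat.mul_le_mul_left _ h1
      _ = ∑ ω : Ω, 2 ^ F * (Fintype.piFinset
          (fun _ : Fin F => (univ : Finset G).filter (fun g => Bad ω g))).card := by rw [mul_sum]
      _ ≤ ∑ _ω : Ω, Fintype.card G ^ F := by
          refine sum_le_sum (fun ω _ => ?_)
          rw [Fintype.card_piFinset, prod_const, card_univ, Fintype.card_fin, ← mul_pow]
          exact Nat.pow_le_pow_left (h ω) F
      _ = Fintype.card Ω * Fintype.card G ^ F := by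
          rw [sum_const, smul_eq_mul, card_univ]
  have h3 := Nat.le_of_mul_le_mul_right h2 (Nat.pow_pos hG)
  omega

end Pool.H66.TSH
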