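import Mathlib

/-!
Number of monotone tuples (3SUM-Indexing with a free index, MP_e016b3_lc).
-/

namespace Pool.H66.TSH

open Finset

/-- monotone tuples -/
abbrev Mon (n N : ℕ) : Type := {f : Fin n → Fin N // Monotone f}

noncomputable instance (n N : ℕ) : Fintype (Mon n N) := Fintype.ofFinite _

theorem mon_card (n N : ℕ) : Fintype.card (Mon n N) ≤ (N + n).choose n := by
  classical
  have hmono : ∀ f : Mon n N, StrictMono (fun i : Fin n => (f.1 i).val + i.val) := by
    intro f i j hij
    have h1 : (f.1 i).val ≤ (f.1 j).val := f.2 hij.le
    have h2 : i.val < j.val := hij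
    show (f.1 i).val + i.val < (f.1 j).val + j.val
    omega
  have h : ((univ : Finset (Mon n N))).card ≤ (powersetCard n (range (N + n))).card := by
    refine card_le_card_of_injOn
      (fun f => (univ : Finset (Fin n)).image (fun i => (f.1 i).val + i.val)) ?_ ?_
    · intro f _
      refine mem_coe.2 (mem_powersetCard.2 ⟨?_, ?_⟩)
      · intro x hx
        obtain ⟨i, _, rfl⟩ := mem_image.1 hx
        rw [mem_range]
        have h1 := (f.1 i).isLt
        have h2 := i.isLt
        omega
      · rw [card_image_of_injective _ (hmono f).injective, card_univ, Fintype.card_fin]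
    · intro f _ g _ hfg
      have h1 : Set.range (fun i : Fin n => (f.1 i).val + i.val) =
          Set.range (fun i : Fin n => (g.1 i).val + i.val) := by
        have h2 : (((univ : Finset (Fin n)).image (fun i => (f.1 i).val + i.val) : Finset ℕ) :
            Set ℕ) = (((univ : Finset (Fin n)).image (fun i => (g.1 i).val + i.val) : Finset ℕ) :
            Set ℕ) := by
          have h3 : (univ : Finset (Fin n)).image (fun i => (f.1 i).val + i.val) =
            (univ : Finset (Fin n)).image (fun i => (g.1 i).val + i.val) := hfg
          rw [h3]
        simpa using h2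
      have h2 := ((hmono f).range_inj (hmono g)).1 h1
      refine Subtype.ext (funext fun i => Fin.ext ?_)
      have h3 := congrFun h2 i
      have h4 : (f.1 i).val + i.val = (g.1 i).val + i.val := h3
      omega
  rw [card_univ, card_powersetCard, card_range] at h
  exact h

theorem exists_sorted {n N : ℕ} (f : Fin n → Fin N) :
    ∃ σ : Equiv.Perm (Fin n), Monotone (f ∘ σ) := ⟨Tuple.sort f, Tuple.monotone_sort f⟩

/-- bound for the number of monotone tuples -/
theorem mon_card_le (n N : ℕ) : Fintype.card (Mon n N) * n.factorial ≤ (N + n) ^ n := by
  calc Fintype.card (Mon n N) * n.factorial ≤ (N + n).choose n * n.factorial :=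
        Nat.mul_le_mul_right _ (mon_card n N)
    _ = (N + n).descFactorial n := by rw [Nat.descFactorial_eq_factorial_mul_choose, mul_comm]
    _ ≤ (N + n) ^ n := Nat.descFactorial_le_pow _ _

end Pool.H66.TSH
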