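import Pool.Agent.H66.TSH.Few
import Pool.Agent.H66.TSH.Load
import Pool.Agent.H66.TSH.Mono
import Pool.Agent.H55.FreeIdx.Defs

/-!
Two probes with a free index: sets of residues and a dictionary for the collisions
(3SUM-Indexing with a free index, MP_e016b3_lc).
-/

namespace Pool.H66.TSH

open Finset Function Classical Pool.Agent.H55.FreeIdx

section basics

/-- the sums of two arrays -/
noncomputable def sums {n U : ℕ} (A B : Fin n → Fin U) : Finset ℕ :=
  univ.image (fun t : Fin n × Fin n => (A t.1 : ℕ) + (B t.2 : ℕ))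

theorem mem_sums {n U : ℕ} (A B : Fin n → Fin U) (z : ℕ) : z ∈ sums A B ↔ IsSum A B z := by
  unfold sums IsSum
  rw [mem_image]
  constructor
  · rintro ⟨t, _, h⟩
    exact ⟨t.1, t.2, h⟩
  · rintro ⟨a, b, h⟩
    exact ⟨(a, b), mem_univ _, h⟩

theorem sums_card {n U : ℕ} (A B : Fin n → Fin U) : (sums A B).card ≤ n ^ 2 := by
  refine card_image_le.trans ?_
  rw [card_univ, Fintype.card_prod, Fintype.card_fin, pow_two]

theorem sums_lt {n U : ℕ} (A B : Fin n → Fin U) (z : ℕ) (hz : z ∈ sums A B) : z < 2 * U := by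
  obtain ⟨t, _, rfl⟩ := mem_image.1 hz
  have h1 := (A t.1).isLt
  have h2 := (B t.2).isLt
  omega

/-- reduction modulo `m + 1` -/
def rd {N : ℕ} (m : Fin N) (x : ℕ) : Fin N :=
  ⟨x % (m.val + 1), lt_of_lt_of_le (Nat.mod_lt _ (Nat.succ_pos _)) m.isLt⟩

/-- a pair of indices whose residues fit to the query -/
noncomputable def pk {n N : ℕ} (hn : 0 < n) (ξ υ : Fin n → Fin N) (m : Fin N) (z : ℕ) :
    Fin n × Fin n :=
  if h : ∃ p : Fin n × Fin n, ((ξ p.1).val + (υ p.2).val) % (m.val + 1) = z % (m.val + 1)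
  then h.choose else (⟨0, hn⟩, ⟨0, hn⟩)

theorem pk_spec {n N : ℕ} (hn : 0 < n) (ξ υ : Fin n → Fin N) (m : Fin N) (z : ℕ)
    (h : ∃ p : Fin n × Fin n, ((ξ p.1).val + (υ p.2).val) % (m.val + 1) = z % (m.val + 1)) :
    ((ξ (pk hn ξ υ m z).1).val + (υ (pk hn ξ υ m z).2).val) % (m.val + 1) =
      z % (m.val + 1) := by
  unfold pk
  rw [dif_pos h]
  exact h.choose_spec

/-- a function into `Fin S` that is injective if possible -/
noncomputable def enc {T : Type*} [Fintype T] {S : ℕ} (hS : 0 < S) (t : T) : Fin S :=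
  if h : Fintype.card T ≤ S then Fin.castLE h (Fintype.equivFin T t) else ⟨0, hS⟩

theorem enc_inj {T : Type*} [Fintype T] {S : ℕ} (hS : 0 < S) (h : Fintype.card T ≤ S) :
    Injective (enc hS : T → Fin S) := by
  intro t t' htt
  unfold enc at htt
  rw [dif_pos h, dif_pos h] at htt
  exact (Fintype.equivFin T).injective (Fin.castLE_injective h htt)

/-- the memory with given contents -/
noncomputable def memo {T W : Type*} {S : ℕ} (e : T → Fin S) (cont : T → W) (w : W)
    (c : Fin S) : W := if h : ∃ t, e t = c then cont h.choose else w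

theorem memo_eq {T W : Type*} {S : ℕ} (e : T → Fin S) (he : Injective e) (cont : T → W) (w : W)
    (t : T) : memo e cont w (e t) = cont t := by
  have hex : ∃ t', e t' = e t := ⟨t, rfl⟩
  unfold memo
  rw [dif_pos hex]
  congr 1
  exact he hex.choose_spec

/-- an enumeration of a small set -/
theorem slots {α : Type*} (Q : Finset α) (L : ℕ) (hQ : Q.card ≤ L) :
    ∃ f : Fin L → Option α, (∀ t z, f t = some z → z ∈ Q) ∧ ∀ z ∈ Q, ∃ t, f t = some z := by
  refine ⟨fun t => Q.toList[t.val]?, fun t z h => ?_, fun z hz => ?_⟩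
  · exact mem_toList.1 (List.mem_of_getElem? h)
  · obtain ⟨i, hi, hz'⟩ := List.mem_iff_getElem.1 (mem_toList.2 hz)
    have hlen : Q.toList.length = Q.card := length_toList Q
    refine ⟨⟨i, by omega⟩, ?_⟩
    show Q.toList[i]? = some z
    rw [List.getElem?_eq_getElem hi, hz']

end basics

section scheme

variable {n U N N₂ J L F : ℕ}

/-- values of the index -/
abbrev Idx (n N N₂ J F : ℕ) : Type :=
  Fin N × (Mon n N × (Mon n N × (Fin N₂ × ((Fin n → Fin (J + 1)) × Fin F))))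

/-- cells of the first table -/
abbrev RC {n J : ℕ} (j : Fin n → Fin (J + 1)) : Type := (r : Fin n) × Fin (2 ^ (j r).val)

/-- all cells -/
abbrev Cells {n J : ℕ} (L : ℕ) (j : Fin n → Fin (J + 1)) : Type :=
  RC j ⊕ ((RC j × Fin L) ⊕ Fin n)

/-- contents of cells -/
abbrev Wd (U N₂ L : ℕ) : Type := Fin (2 * U) × (Fin L → Fin (N₂ + 1))

theorem cells_card {n J : ℕ} (L : ℕ) (j : Fin n → Fin (J + 1)) :
    Fintype.card (Cells L j) = (∑ r, 2 ^ (j r).val) + ((∑ r, 2 ^ (j r).val) * L + n) := by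
  simp [Cells, RC]

/-- the cell of the first probe -/
def rc (G : Fin F → (Fin (2 * U) → Fin (2 ^ J))) (hU : 0 < U) (i : Fin F)
    (j : Fin n → Fin (J + 1)) (r : Fin n) (z : ℕ) : RC j :=
  ⟨r, ⟨(G i ⟨z % (2 * U), Nat.mod_lt _ (by omega)⟩).val % 2 ^ (j r).val,
    Nat.mod_lt _ (Nat.pow_pos (by norm_num))⟩⟩

/-- fingerprints -/
def fpr (m₂ : Fin N₂) (z : ℕ) : Fin (N₂ + 1) := (rd m₂ z).castSucc

theorem fpr_ne_last (m₂ : Fin N₂) (z : ℕ) : fpr m₂ z ≠ Fin.last N₂ := (Fin.castSucc_lt_last _).ne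

theorem fpr_eq (m₂ : Fin N₂) (z z' : ℕ) (h : fpr m₂ z = fpr m₂ z') :
    z % (m₂.val + 1) = z' % (m₂.val + 1) := by
  have h1 := Fin.castSucc_injective _ h
  exact congrArg Fin.val h1

end scheme

end Pool.H66.TSH
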