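import Pool.Agent.H66.TSH.Dict

/-!
Two probes with a free index: the structure (3SUM-Indexing with a free index, MP_e016b3_lc).
-/

namespace Pool.H66.TSH

open Finset Function Classical Pool.Agent.H55.FreeIdx

variable {n U N N₂ J L F S W H : ℕ}

/-- there is a slot with the fingerprint of `z` -/
def Hit (m₂ : Fin N₂) (x : Wd U N₂ L) (z : ℕ) : Prop := ∃ t : Fin L, x.2 t = fpr m₂ z

/-- address of the second probe -/
noncomputable def snd (j : Fin n → Fin (J + 1)) (m₂ : Fin N₂) (c : RC j) (s : Fin n)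
    (x : Wd U N₂ L) (z : ℕ) : Cells L j :=
  if h : Hit m₂ x z then Sum.inr (Sum.inl (c, h.choose)) else Sum.inr (Sum.inr s)

/-- the answer -/
noncomputable def answ (m₂ : Fin N₂) (x y : Wd U N₂ L) (z : ℕ) : Bool :=
  if Hit m₂ x z then decide (y.1.val = z) else decide (x.1.val + y.1.val = z)

/-- address of the first probe -/
noncomputable def ad0 (hn : 0 < n) (hU : 0 < U) (hS : 0 < S) (L : ℕ)
    (G : Fin F → (Fin (2 * U) → Fin (2 ^ J))) (i : Idx n N N₂ J F) (z : ℕ) : Fin S :=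
  enc hS (Sum.inl (rc G hU i.2.2.2.2.2 i.2.2.2.2.1 (pk hn i.2.1.1 i.2.2.1.1 i.1 z).1 z) :
    Cells L i.2.2.2.2.1)

/-- address of the second probe -/
noncomputable def ad1 (hn : 0 < n) (hU : 0 < U) (hS : 0 < S)
    (G : Fin F → (Fin (2 * U) → Fin (2 ^ J))) (i : Idx n N N₂ J F) (z : ℕ) (x : Wd U N₂ L) :
    Fin S :=
  enc hS (snd i.2.2.2.2.1 i.2.2.2.1
    (rc G hU i.2.2.2.2.2 i.2.2.2.2.1 (pk hn i.2.1.1 i.2.2.1.1 i.1 z).1 z)
    (pk hn i.2.1.1 i.2.2.1.1 i.1 z).2 x z : Cells L i.2.2.2.2.1)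

/-- the query algorithm -/
noncomputable def alg (hn : 0 < n) (hU : 0 < U) (hS : 0 < S)
    (G : Fin F → (Fin (2 * U) → Fin (2 ^ J)))
    (eI : Idx n N N₂ J F ≃ Fin H) (eW : Wd U N₂ L ≃ Fin W) : Scheme H S W where
  addr := fun h z l =>
    match l with
    | [] => ad0 hn hU hS L G (eI.symm h) z
    | x :: _ => ad1 hn hU hS G (eI.symm h) z (eW.symm x)
  ans := fun h z l =>
    match l with
    | [] => false
    | [_] => false
    | y :: x :: _ => answ (eI.symm h).2.2.2.1 (eW.symm x) (eW.symm y) z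

/-- contents of the cells -/
noncomputable def cont (A B : Fin n → Fin U) (σ τ : Equiv.Perm (Fin n))
    (j : Fin n → Fin (J + 1)) (m₂ : Fin N₂) (hU : 0 < U)
    (sl : RC j → Fin L → Option (Fin (2 * U))) : Cells L j → Wd U N₂ L
  | Sum.inl c => (⟨(A (σ c.1)).val, by have := (A (σ c.1)).isLt; omega⟩,
      fun t => match sl c t with
        | some z => fpr m₂ z.val
        | none => Fin.last N₂)
  | Sum.inr (Sum.inl (c, t)) => (match sl c t with
        | some z => z
        | none => ⟨0, by omega⟩, fun _ => Fin.last N₂)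
  | Sum.inr (Sum.inr s) => (⟨(B (τ s)).val, by have := (B (τ s)).isLt; omega⟩,
      fun _ => Fin.last N₂)

theorem clog_bounds (x : ℕ) : x ≤ 2 ^ Nat.clog 2 x ∧ 2 ^ Nat.clog 2 x ≤ 1 + 2 * x := by
  refine ⟨Nat.le_pow_clog (by norm_num) x, ?_⟩
  by_cases h : 1 < x
  · have h1 := Nat.pow_pred_clog_lt_self (b := 2) (by norm_num) h
    have h2 : 0 < Nat.clog 2 x := Nat.clog_pos (by norm_num) (by omega)
    have h3 : 2 ^ Nat.clog 2 x = 2 * 2 ^ (Nat.clog 2 x).pred := by
      rw [← pow_succ']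
      congr 1
      exact (Nat.succ_pred_eq_of_pos h2).symm
    rw [h3]
    omega
  · have h1 : Nat.clog 2 x = 0 := Nat.clog_of_right_le_one (by omega) 2
    rw [h1]
    omega

theorem dict_solvable (hn : 0 < n) (hU : 0 < U)
    (G : Fin F → (Fin (2 * U) → Fin (2 ^ J))) (B₀ D S₁ : ℕ)
    (hfew : ∀ Z : Finset ℕ, Z.card ≤ n ^ 2 → (∀ z ∈ Z, z < 2 * U) →
      ∃ m, 1 ≤ m ∧ m ≤ N ∧ (coll Z m).card ≤ D)
    (hmod : ∀ A B : Fin n → Fin U, ∃ m₂ : Fin N₂, ∀ z ∈ sums A B, ∀ z' ∈ sums A B,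
      z % (m₂.val + 1) = z' % (m₂.val + 1) → z = z')
    (hG : ∀ (Q : Finset (Fin (2 * U))) (row : Fin (2 * U) → Fin n) (j : Fin n → Fin (J + 1)),
      Q.card ≤ D → (∀ r, (Q.filter (fun z => row z = r)).card * B₀ ≤ 2 ^ (j r).val) →
      ∃ i, ¬ HeavyCell L Q row (fun r => 2 ^ (j r).val) (G i))
    (hJ : 1 + 2 * (B₀ * D) ≤ 2 ^ J) (hS₁ : n + 2 * (B₀ * D) ≤ S₁)
    (hH : Fintype.card (Idx n N N₂ J F) = H) (hW : Fintype.card (Wd U N₂ L) = W) :
    Solvable n U (S₁ + S₁ * L + n) W H 2 := by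
  obtain ⟨S, hSdef⟩ : ∃ S, S = S₁ + S₁ * L + n := ⟨_, rfl⟩
  have hS : 0 < S := by omega
  rw [← hSdef]
  have eI : Idx n N N₂ J F ≃ Fin H := Fintype.equivFinOfCardEq hH
  have eW : Wd U N₂ L ≃ Fin W := Fintype.equivFinOfCardEq hW
  refine ⟨alg hn hU hS G eI eW, fun A B => ?_⟩
  -- the modulus
  obtain ⟨m', hm1, hm2, hm3⟩ := hfew (sums A B) (sums_card A B) (sums_lt A B)
  obtain ⟨m, hm⟩ : ∃ m : Fin N, m.val + 1 = m' := ⟨⟨m' - 1, by omega⟩, by
    show m' - 1 + 1 = m'
    omega⟩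
  obtain ⟨m₂, hm₂⟩ := hmod A B
  obtain ⟨σ, hσ⟩ := exists_sorted (fun a => rd m (A a))
  obtain ⟨τ, hτ⟩ := exists_sorted (fun b => rd m (B b))
  obtain ⟨ξ, hξ⟩ : ∃ ξ : Mon n N, ξ.1 = (fun a => rd m (A a)) ∘ σ := ⟨⟨_, hσ⟩, rfl⟩
  obtain ⟨υ, hυ⟩ : ∃ υ : Mon n N, υ.1 = (fun b => rd m (B b)) ∘ τ := ⟨⟨_, hτ⟩, rfl⟩
  -- bad sums
  set bad := badSums (sums A B) m' with hbad
  set Q : Finset (Fin (2 * U)) := univ.filter (fun z => z.val ∈ bad) with hQ
  have hQD : Q.card ≤ D := by
    refine le_trans ?_ ((badSums_card _ _).trans hm3)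
    refine card_le_card_of_injOn (fun z => z.val) ?_ ?_
    · intro z hz
      exact mem_coe.2 (mem_filter.1 (mem_coe.1 hz)).2
    · intro z _ z' _ h
      exact Fin.ext h
  set row : Fin (2 * U) → Fin n := fun z => (pk hn ξ.1 υ.1 m z.val).1 with hrow
  have hfib : ∀ r, (Q.filter (fun z => row z = r)).card ≤ D :=
    fun r => (card_filter_le _ _).trans hQD
  -- sizes of the rows
  have hclJ : ∀ r, Nat.clog 2 ((Q.filter (fun z => row z = r)).card * B₀) ≤ J := by
    intro r
    have h1 := (clog_bounds ((Q.filter (fun z => row z = r)).card * B₀)).2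
    have h2 : (Q.filter (fun z => row z = r)).card * B₀ ≤ B₀ * D := by
      rw [mul_comm]
      exact Nat.mul_le_mul_left _ (hfib r)
    have h3 : 2 ^ Nat.clog 2 ((Q.filter (fun z => row z = r)).card * B₀) ≤ 2 ^ J := by omega
    exact (Nat.pow_le_pow_iff_right (by norm_num)).1 h3
  obtain ⟨j, hj⟩ : ∃ j : Fin n → Fin (J + 1), ∀ r,
      (j r).val = Nat.clog 2 ((Q.filter (fun z => row z = r)).card * B₀) :=
    ⟨fun r => ⟨_, Nat.lt_succ_of_le (hclJ r)⟩, fun r => rfl⟩
  have hj1 : ∀ r, (Q.filter (fun z => row z = r)).card * B₀ ≤ 2 ^ (j r).val := by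
    intro r
    rw [hj]
    exact (clog_bounds _).1
  have hjS : (∑ r, 2 ^ (j r).val) ≤ S₁ := by
    refine le_trans ?_ hS₁
    calc (∑ r, 2 ^ (j r).val) ≤ ∑ r, (1 + 2 * ((Q.filter (fun z => row z = r)).card * B₀)) := by
          refine sum_le_sum (fun r _ => ?_)
          rw [hj]
          exact (clog_bounds _).2
      _ = n + 2 * (Q.card * B₀) := by
          rw [sum_add_distrib, sum_const, smul_eq_mul, card_univ, Fintype.card_fin, mul_one,
            ← mul_sum, ← sum_mul, ← card_eq_sum_card_fiberwise (f := row)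
              (fun x _ => mem_coe.2 (mem_univ _))]
      _ ≤ n + 2 * (B₀ * D) := by
          rw [mul_comm Q.card]
          exact Nat.add_le_add_left (Nat.mul_le_mul_left _ (Nat.mul_le_mul_left _ hQD)) _
  obtain ⟨i, hi⟩ := hG Q row j hQD hj1
  -- cells
  have hcard : Fintype.card (Cells L j) ≤ S := by
    rw [cells_card, hSdef, Nat.add_assoc]
    exact Nat.add_le_add hjS (Nat.add_le_add_right (Nat.mul_le_mul_right _ hjS) _)
  have hinj : Injective (enc hS : Cells L j → Fin S) := enc_inj hS hcard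
  have hslots : ∀ c : RC j, ∃ f : Fin L → Option (Fin (2 * U)),
      (∀ t z, f t = some z → z ∈ Q.filter (fun z => row z = c.1 ∧
        (G i z).val % 2 ^ (j c.1).val = c.2.val)) ∧
      ∀ z ∈ Q.filter (fun z => row z = c.1 ∧
        (G i z).val % 2 ^ (j c.1).val = c.2.val), ∃ t, f t = some z := by
    intro c
    refine slots _ L ?_
    by_contra hcon
    exact hi ⟨c.1, c.2.val, not_le.1 hcon⟩
  choose sl hsl1 hsl2 using hslots
  set ct : Cells L j → Fin W := fun t => eW (cont A B σ τ j m₂ hU sl t) with hct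
  have hw : Nonempty (Fin W) := ⟨ct (Sum.inr (Sum.inr ⟨0, hn⟩))⟩
  obtain ⟨w₀⟩ := hw
  set M : Fin S → Fin W := memo (enc hS) ct w₀ with hM
  have hMe : ∀ t : Cells L j, M (enc hS t) = ct t := fun t => memo_eq _ hinj ct w₀ t
  refine ⟨eI (m, ξ, υ, m₂, j, i), M, fun z => ?_⟩
  -- the computation
  set p := pk hn ξ.1 υ.1 m z with hp
  set c : RC j := rc G hU i j p.1 z with hc
  have hrun : (alg hn hU hS G eI eW).run 2 (eI (m, ξ, υ, m₂, j, i)) M z =
      answ m₂ (cont A B σ τ j m₂ hU sl (Sum.inl c))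
        (cont A B σ τ j m₂ hU sl
          (snd j m₂ c p.2 (cont A B σ τ j m₂ hU sl (Sum.inl c)) z)) z := by
    have h0 : (alg hn hU hS G eI eW).addr (eI (m, ξ, υ, m₂, j, i)) z [] =
        enc hS (Sum.inl c : Cells L j) := by
      show ad0 hn hU hS L G (eI.symm (eI (m, ξ, υ, m₂, j, i))) z = _
      rw [Equiv.symm_apply_apply]
      rfl
    have h1 : ∀ x : Fin W, (alg hn hU hS G eI eW).addr (eI (m, ξ, υ, m₂, j, i)) z [x] =
        enc hS (snd j m₂ c p.2 (eW.symm x) z : Cells L j) := by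
      intro x
      show ad1 hn hU hS G (eI.symm (eI (m, ξ, υ, m₂, j, i))) z (eW.symm x) = _
      rw [Equiv.symm_apply_apply]
      rfl
    have h2 : ∀ x y : Fin W, (alg hn hU hS G eI eW).ans (eI (m, ξ, υ, m₂, j, i)) z [y, x] =
        answ m₂ (eW.symm x) (eW.symm y) z := by
      intro x y
      show answ (eI.symm (eI (m, ξ, υ, m₂, j, i))).2.2.2.1 _ _ _ = _
      simp only [Equiv.symm_apply_apply]
    show (alg hn hU hS G eI eW).ans (eI (m, ξ, υ, m₂, j, i)) z
      [M ((alg hn hU hS G eI eW).addr (eI (m, ξ, υ, m₂, j, i)) z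
        [M ((alg hn hU hS G eI eW).addr (eI (m, ξ, υ, m₂, j, i)) z [])]),
        M ((alg hn hU hS G eI eW).addr (eI (m, ξ, υ, m₂, j, i)) z [])] = _
    rw [h0, h1, h2, hMe, hMe, hct]
    simp only [Equiv.symm_apply_apply]
  rw [hrun, ← mem_sums]
  -- residues
  have hkey : ∀ p : Fin n × Fin n, ((ξ.1 p.1).val + (υ.1 p.2).val) % (m.val + 1) =
      ((A (σ p.1)).val + (B (τ p.2)).val) % (m.val + 1) := by
    intro p
    rw [hξ, hυ]
    show ((A (σ p.1)).val % (m.val + 1) + (B (τ p.2)).val % (m.val + 1)) % (m.val + 1) = _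
    rw [← Nat.add_mod]
  have hsum : ∀ a b, (A a).val + (B b).val ∈ sums A B :=
    fun a b => (mem_sums A B _).2 ⟨a, b, rfl⟩
  have hslot : ∀ t z', sl c t = some z' → z'.val ∈ sums A B := by
    intro t z' h
    have h1 := hsl1 c t z' h
    have h2 := (mem_filter.1 (mem_filter.1 h1).1).2
    exact (mem_filter.1 h2).1
  by_cases hhit : Hit m₂ (cont A B σ τ j m₂ hU sl (Sum.inl c)) z
  · -- a fingerprint is found
    have h1 : snd j m₂ c p.2 (cont A B σ τ j m₂ hU sl (Sum.inl c)) z =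
        Sum.inr (Sum.inl (c, hhit.choose)) := by
      unfold snd
      rw [dif_pos hhit]
    rw [h1]
    obtain ⟨t, ht⟩ : ∃ t, t = hhit.choose := ⟨_, rfl⟩
    have h2 := hhit.choose_spec
    rw [← ht] at h2
    rw [← ht]
    unfold answ
    rw [if_pos hhit, decide_eq_true_eq]
    cases hs : sl c t with
    | none =>
      exfalso
      have h3 : (cont A B σ τ j m₂ hU sl (Sum.inl c)).2 t = Fin.last N₂ := by
        show (match sl c t with
          | some z => fpr m₂ z.val
          | none => Fin.last N₂) = Fin.last N₂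
        rw [hs]
      rw [h3] at h2
      exact fpr_ne_last m₂ z h2.symm
    | some z' =>
      have h3 : (cont A B σ τ j m₂ hU sl (Sum.inl c)).2 t = fpr m₂ z'.val := by
        show (match sl c t with
          | some z => fpr m₂ z.val
          | none => Fin.last N₂) = fpr m₂ z'.val
        rw [hs]
      rw [h3] at h2
      have h4 : (cont A B σ τ j m₂ hU sl (Sum.inr (Sum.inl (c, t)))).1 = z' := by
        show (match sl c t with
          | some z => z
          | none => ⟨0, by omega⟩) = z'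
        rw [hs]
      rw [h4]
      constructor
      · intro h5
        rw [← h5]
        exact hslot t z' hs
      · intro h5
        exact hm₂ _ (hslot t z' hs) _ h5 (fpr_eq m₂ _ _ h2)
  · -- no fingerprint is found
    have h1 : snd j m₂ c p.2 (cont A B σ τ j m₂ hU sl (Sum.inl c)) z =
        Sum.inr (Sum.inr p.2) := by
      unfold snd
      rw [dif_neg hhit]
    rw [h1]
    unfold answ
    rw [if_neg hhit, decide_eq_true_eq]
    show (A (σ p.1)).val + (B (τ p.2)).val = z ↔ z ∈ sums A B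
    constructor
    · intro h2
      rw [← h2]
      exact hsum _ _
    · intro hz
      have hzU := sums_lt A B z hz
      have hnb : z ∉ bad := by
        intro hb
        have hzQ : (⟨z, hzU⟩ : Fin (2 * U)) ∈ Q.filter (fun z' => row z' = c.1 ∧
            (G i z').val % 2 ^ (j c.1).val = c.2.val) := by
          refine mem_filter.2 ⟨mem_filter.2 ⟨mem_univ _, hb⟩, rfl, ?_⟩
          show (G i ⟨z, hzU⟩).val % 2 ^ (j p.1).val =
            (G i ⟨z % (2 * U), _⟩).val % 2 ^ (j p.1).val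
          congr 3
          exact Fin.ext (Nat.mod_eq_of_lt hzU).symm
        obtain ⟨t, ht⟩ := hsl2 c _ hzQ
        refine hhit ⟨t, ?_⟩
        show (match sl c t with
          | some z => fpr m₂ z.val
          | none => Fin.last N₂) = fpr m₂ z
        rw [ht]
      obtain ⟨a, b, hab⟩ := (mem_sums A B z).1 hz
      have hex : ∃ p : Fin n × Fin n,
          ((ξ.1 p.1).val + (υ.1 p.2).val) % (m.val + 1) = z % (m.val + 1) := by
        refine ⟨(σ.symm a, τ.symm b), ?_⟩
        rw [hkey]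
        simp only [Equiv.apply_symm_apply]
        rw [hab]
      have h2 := pk_spec hn ξ.1 υ.1 m z hex
      rw [← hp, hkey, hm] at h2
      by_contra hne
      exact hnb (mem_filter.2 ⟨hz, _, hsum (σ p.1) (τ p.2), fun h3 => hne h3.symm, h2.symm⟩)

end Pool.H66.TSH
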