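import Pool.Agent.H66.TSH.Dict2
import Pool.Agent.H55.FreeIdx.Numeric
import Pool.Agent.H54.TSUM.Params

/-!
Two probes with a free index of `(2 + δ) n log₂ n` bits: the choice of the parameters
(3SUM-Indexing with a free index, MP_e016b3_lc).
-/

namespace Pool.H66.TSH

open Finset Function Pool.Agent.H55.FreeIdx

theorem psi_half (N : ℕ) (hN : 64 ≤ N) : (N : ℝ) / 2 ≤ Chebyshev.psi N := by
  have h1 := Chebyshev.psi_ge N
  have h2 : Real.log 2 > 0.6931471803 := Real.log_two_gt_d9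
  have h3 : Real.log 2 < 0.6931471808 := Real.log_two_lt_d9
  have hN' : (64 : ℝ) ≤ N := by exact_mod_cast hN
  have h4 : Real.log ((N : ℝ) + 1) ≤ ((N : ℝ) + 1) / 16 - 1 + 4 * Real.log 2 := by
    have e1 : Real.log ((N : ℝ) + 1) = Real.log (((N : ℝ) + 1) / 16) + Real.log 16 := by
      rw [← Real.log_mul (by positivity) (by norm_num)]
      congr 1
      ring
    have e2 : Real.log 16 = 4 * Real.log 2 := by
      rw [show (16 : ℝ) = 2 ^ (4 : ℕ) by norm_num, Real.log_pow]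
      norm_num
    have e3 := Real.log_le_sub_one_of_pos (x := ((N : ℝ) + 1) / 16) (by positivity)
    rw [e1, e2]
    linarith
  nlinarith

/-- few collisions -/
theorem few_ok (b n U : ℕ) (hb : 4 ≤ b) (hbn : b ≤ n) (hU : 1 ≤ U)
    (hU2 : 2 * U ≤ 2 ^ (b / 2)) (Z : Finset ℕ) (hZ : Z.card ≤ n ^ 2)
    (hlt : ∀ z ∈ Z, z < 2 * U) :
    ∃ m, 1 ≤ m ∧ m ≤ n ^ 2 * b ^ 3 ∧ (coll Z m).card ≤ n ^ 2 / b ^ 2 := by
  refine exists_few Z n U (n ^ 2 * b ^ 3) (n ^ 2 / b ^ 2) hU hZ hlt ?_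
  have hb0 : (0 : ℝ) < b := by exact_mod_cast (by omega : 0 < b)
  have hn0 : (0 : ℝ) < n := by exact_mod_cast (by omega : 0 < n)
  have h64 : 64 ≤ n ^ 2 * b ^ 3 := by
    calc 64 = 1 ^ 2 * 4 ^ 3 := by norm_num
      _ ≤ n ^ 2 * b ^ 3 := Nat.mul_le_mul (Nat.pow_le_pow_left (by omega) 2)
          (Nat.pow_le_pow_left hb 3)
  have h1 := psi_half (n ^ 2 * b ^ 3) h64
  push_cast at h1
  have h2 : ((n : ℝ) ^ 2 / (b : ℝ) ^ 2) ≤ ((n ^ 2 / b ^ 2 : ℕ) : ℝ) + 1 := by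
    rw [div_le_iff₀ (by positivity)]
    have h3 := Nat.lt_div_mul_add (a := n ^ 2) (b := b ^ 2) (by positivity)
    have h4 : ((n ^ 2 : ℕ) : ℝ) < ((n ^ 2 / b ^ 2 : ℕ) : ℝ) * ((b ^ 2 : ℕ) : ℝ) +
        ((b ^ 2 : ℕ) : ℝ) := by exact_mod_cast h3
    push_cast at h4 ⊢
    nlinarith
  have h3 : Real.log (2 * U) < b / 2 := by
    have e1 : Real.log (2 * U) ≤ ((b / 2 : ℕ) : ℝ) * Real.log 2 := by
      rw [← Real.log_pow]
      refine Real.log_le_log ?_ ?_
      · have : (0 : ℝ) < U := by exact_mod_cast hU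
        positivity
      · exact_mod_cast hU2
    have e2 : ((b / 2 : ℕ) : ℝ) ≤ (b : ℝ) / 2 := by
      have := @Nat.cast_div_le ℝ _ _ _ b 2
      push_cast at this
      exact this
    have e3 : Real.log 2 < 0.6931471808 := Real.log_two_lt_d9
    have e4 : 0 < Real.log 2 := Real.log_pos (by norm_num)
    nlinarith
  calc (n : ℝ) ^ 4 * Real.log (2 * U) < (n : ℝ) ^ 4 * (b / 2) :=
        mul_lt_mul_of_pos_left h3 (by positivity)
    _ = ((n : ℝ) ^ 2 / (b : ℝ) ^ 2) * ((n : ℝ) ^ 2 * (b : ℝ) ^ 3 / 2) := by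
        field_simp
    _ ≤ (((n ^ 2 / b ^ 2 : ℕ) : ℝ) + 1) * Chebyshev.psi ((n ^ 2 * b ^ 3 : ℕ) : ℝ) := by
        push_cast
        push_cast at h2
        exact mul_le_mul h2 h1 (by positivity) (by positivity)

/-- a configuration within the bounds together with a function that has a heavy cell -/
def BadCfg {V n J : ℕ} (D B₀ L : ℕ)
    (ω : Finset (Fin V) × ((Fin V → Fin n) × (Fin n → Fin (J + 1))))
    (g : Fin V → Fin (2 ^ J)) : Prop :=
  ω.1.card ≤ D ∧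
    (∀ r, (ω.1.filter (fun z => ω.2.1 z = r)).card * B₀ ≤ 2 ^ (ω.2.2 r).val) ∧
    HeavyCell L ω.1 ω.2.1 (fun r => 2 ^ (ω.2.2 r).val) g

open scoped Classical in
theorem badCfg_half (V n J L B₀ D : ℕ) (hB₀ : 0 < B₀) (hD : 2 * D ≤ B₀ ^ L)
    (ω : Finset (Fin V) × ((Fin V → Fin n) × (Fin n → Fin (J + 1)))) :
    2 * ((univ : Finset (Fin V → Fin (2 ^ J))).filter (fun g => BadCfg D B₀ L ω g)).card ≤
      (2 ^ J) ^ V := by
  by_cases h : ω.1.card ≤ D ∧
    (∀ r, (ω.1.filter (fun z => ω.2.1 z = r)).card * B₀ ≤ 2 ^ (ω.2.2 r).val)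
  · have hload := load V n (2 ^ J) L B₀ (Nat.pow_pos (by norm_num)) hB₀ ω.1 ω.2.1
      (fun r => 2 ^ (ω.2.2 r).val) (fun r => Nat.pow_pos (by norm_num))
      (fun r => Nat.pow_dvd_pow 2 (by have := (ω.2.2 r).isLt; omega))
      (fun r => by convert h.2 r)
      ((Nat.mul_le_mul_left 2 h.1).trans hD)
    refine le_trans (Nat.mul_le_mul_left 2 (card_le_card ?_)) hload
    intro g hg
    rw [mem_filter] at hg ⊢
    exact ⟨hg.1, hg.2.2.2⟩
  · have h0 : ((univ : Finset (Fin V → Fin (2 ^ J))).filter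
        (fun g => BadCfg D B₀ L ω g)) = ∅ := by
      rw [filter_eq_empty_iff]
      intro g _ hg
      exact h ⟨hg.1, by
        intro r
        convert hg.2.1 r⟩
    rw [h0, card_empty]
    exact Nat.zero_le _

/-- a good family of functions -/
theorem family_ok (V n J L B₀ D F : ℕ) (hB₀ : 0 < B₀) (hD : 2 * D ≤ B₀ ^ L)
    (hF : 2 ^ V * n ^ V * (J + 1) ^ n < 2 ^ F) :
    ∃ G : Fin F → (Fin V → Fin (2 ^ J)), ∀ (Q : Finset (Fin V)) (row : Fin V → Fin n)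
      (j : Fin n → Fin (J + 1)), Q.card ≤ D →
      (∀ r, (Q.filter (fun z => row z = r)).card * B₀ ≤ 2 ^ (j r).val) →
      ∃ i, ¬ HeavyCell L Q row (fun r => 2 ^ (j r).val) (G i) := by
  classical
  obtain ⟨G, hG⟩ := family (Ω := Finset (Fin V) × ((Fin V → Fin n) × (Fin n → Fin (J + 1))))
    (G := Fin V → Fin (2 ^ J)) (BadCfg D B₀ L)
    (by
      intro ω
      have h := badCfg_half V n J L B₀ D hB₀ hD ω
      rw [Fintype.card_fun, Fintype.card_fin, Fintype.card_fin]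
      convert h)
    F
    (by
      rw [Fintype.card_prod, Fintype.card_finset, Fintype.card_prod, Fintype.card_fun,
        Fintype.card_fun, Fintype.card_fin, Fintype.card_fin, Fintype.card_fin]
      calc 2 ^ V * (n ^ V * (J + 1) ^ n) = 2 ^ V * n ^ V * (J + 1) ^ n := by ring
        _ < 2 ^ F := hF)
    (by
      rw [Fintype.card_fun, Fintype.card_fin, Fintype.card_fin]
      positivity)
  refine ⟨G, fun Q row j h1 h2 => ?_⟩
  obtain ⟨i, hi⟩ := hG (Q, row, j)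
  exact ⟨i, fun h3 => hi ⟨h1, by intro r; convert h2 r, h3⟩⟩

/-- The structure in terms of an integer root of `n`. -/
theorem dict_b (κ b n U : ℕ) (hκ : 1 ≤ κ) (hb1 : b ^ κ ≤ n) (hb2 : n < (b + 1) ^ κ)
    (hb3 : 2 ^ (2 * κ + 1) ≤ b) (hb4 : 36 ≤ b) (hb5 : 1 + 2 * (2 * b) ^ (2 * κ) ≤ 2 ^ b)
    (hU : 1 ≤ U) (hU2 : 2 * U ≤ 2 ^ (b / 2)) :
    ∃ S W H : ℕ, S * b ≤ 3 * (2 * κ + 3) * n ^ 2 ∧ W ≤ U * n ^ (6 * (2 * κ + 1) + 1) ∧
      (H : ℝ) ≤ (b : ℝ) ^ (10 * n) * (n : ℝ) ^ (2 * n) ∧ Solvable n U S W H 2 := by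
  have hbpos : 0 < b := by omega
  have hbn : b ≤ n := by
    calc b = b ^ 1 := (pow_one b).symm
      _ ≤ b ^ κ := Nat.pow_le_pow_right hbpos hκ
      _ ≤ n := hb1
  have hnpos : 0 < n := by omega
  obtain ⟨N, hN⟩ : ∃ N, N = n ^ 2 * b ^ 3 := ⟨_, rfl⟩
  obtain ⟨N₂, hN₂⟩ : ∃ N₂, N₂ = 2 * n ^ 5 := ⟨_, rfl⟩
  obtain ⟨D, hD⟩ : ∃ D, D = n ^ 2 / b ^ 2 := ⟨_, rfl⟩
  obtain ⟨L, hL⟩ : ∃ L, L = 2 * κ + 1 := ⟨_, rfl⟩
  obtain ⟨F, hF⟩ : ∃ F, F = 2 * U + n * (2 * U) + (b + 1) * n + 1 := ⟨_, rfl⟩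
  obtain ⟨S₁, hS₁⟩ : ∃ S₁, S₁ = n + 2 * (b * D) := ⟨_, rfl⟩
  have hU2n : 2 * U ≤ 2 ^ n := hU2.trans (Nat.pow_le_pow_right (by norm_num) (by omega))
  have hUn : U ≤ 2 ^ n := by omega
  have hDn : D ≤ n ^ 2 := hD ▸ Nat.div_le_self _ _
  have hDb : b * D * b ≤ n ^ 2 := by
    calc b * D * b = D * b ^ 2 := by ring
      _ ≤ n ^ 2 := hD ▸ Nat.div_mul_le_self _ _
  have hn2 : n ^ 2 ≤ (2 * b) ^ (2 * κ) := by
    calc n ^ 2 ≤ ((b + 1) ^ κ) ^ 2 := Nat.pow_le_pow_left hb2.le 2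
      _ ≤ ((2 * b) ^ κ) ^ 2 := Nat.pow_le_pow_left (Nat.pow_le_pow_left (by omega) κ) 2
      _ = (2 * b) ^ (2 * κ) := by rw [← pow_mul]; congr 1; ring
  have hDL : 2 * D ≤ b ^ L := by
    calc 2 * D ≤ 2 * (2 * b) ^ (2 * κ) := Nat.mul_le_mul_left _ (hDn.trans hn2)
      _ = 2 ^ (2 * κ + 1) * b ^ (2 * κ) := by rw [mul_pow, pow_succ]; ring
      _ ≤ b * b ^ (2 * κ) := Nat.mul_le_mul_right _ hb3
      _ = b ^ L := by rw [hL, pow_succ, mul_comm]
  obtain ⟨G, hG⟩ := family_ok (2 * U) n b L b D F hbpos hDL (by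
    have h1 : n ^ (2 * U) ≤ 2 ^ (n * (2 * U)) := by
      calc n ^ (2 * U) ≤ (2 ^ n) ^ (2 * U) := Nat.pow_le_pow_left (Nat.lt_two_pow_self).le _
        _ = 2 ^ (n * (2 * U)) := by rw [← pow_mul]
    have h2 : (b + 1) ^ n ≤ 2 ^ ((b + 1) * n) := by
      calc (b + 1) ^ n ≤ (2 ^ (b + 1)) ^ n := Nat.pow_le_pow_left (Nat.lt_two_pow_self).le _
        _ = 2 ^ ((b + 1) * n) := by rw [← pow_mul]
    calc 2 ^ (2 * U) * n ^ (2 * U) * (b + 1) ^ n
        ≤ 2 ^ (2 * U) * 2 ^ (n * (2 * U)) * 2 ^ ((b + 1) * n) :=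
          Nat.mul_le_mul (Nat.mul_le_mul_left _ h1) h2
      _ = 2 ^ (2 * U + n * (2 * U) + (b + 1) * n) := by rw [pow_add, pow_add]
      _ < 2 ^ F := Nat.pow_lt_pow_right (by norm_num) (by omega))
  have hsolv := dict_solvable (N := N) (N₂ := N₂) (L := L) hnpos hU G b D S₁
    (fun Z hZ hlt => by
      rw [hN, hD]
      exact few_ok b n U (by omega) hbn hU hU2 Z hZ hlt)
    (fun A B => by
      obtain ⟨m₂, hm₂⟩ := exists_modulus (N := 2 * n ^ 5) A B hU (modulus_ok (by omega) hUn)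
      subst hN₂
      refine ⟨m₂, ?_⟩
      intro z hz z' hz' hzz
      obtain ⟨a, b', rfl⟩ := (mem_sums A B z).1 hz
      obtain ⟨a', b'', rfl⟩ := (mem_sums A B z').1 hz'
      exact hm₂ a b' a' b'' hzz)
    hG
    (by
      have h1 : b * D ≤ n ^ 2 := le_trans (Nat.le_mul_of_pos_right _ hbpos) hDb
      omega)
    hS₁.ge rfl rfl
  refine ⟨_, _, _, ?_, ?_, ?_, hsolv⟩
  · -- space
    have h1 : S₁ * b ≤ 3 * n ^ 2 := by
      calc S₁ * b = n * b + 2 * (b * D * b) := by rw [hS₁]; ring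
        _ ≤ n * n + 2 * n ^ 2 := Nat.add_le_add (Nat.mul_le_mul_left _ hbn)
            (Nat.mul_le_mul_left _ hDb)
        _ = 3 * n ^ 2 := by ring
    have h2 : n * b ≤ n ^ 2 := by rw [pow_two]; exact Nat.mul_le_mul_left _ hbn
    calc (S₁ + S₁ * L + n) * b = (L + 1) * (S₁ * b) + n * b := by ring
      _ ≤ (L + 1) * (3 * n ^ 2) + n ^ 2 := Nat.add_le_add (Nat.mul_le_mul_left _ h1) h2
      _ ≤ (L + 1) * (3 * n ^ 2) + 3 * n ^ 2 := Nat.add_le_add_left (by omega) _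
      _ = 3 * (2 * κ + 3) * n ^ 2 := by rw [hL]; ring
  · -- word size
    rw [Fintype.card_prod, Fintype.card_fun, Fintype.card_fin, Fintype.card_fin,
      Fintype.card_fin]
    have h1 : N₂ + 1 ≤ n ^ 6 := by
      have h2 : 1 ≤ n ^ 5 := Nat.pow_pos hnpos
      calc N₂ + 1 ≤ 3 * n ^ 5 := by omega
        _ ≤ n * n ^ 5 := Nat.mul_le_mul_right _ (by omega)
        _ = n ^ 6 := by ring
    calc 2 * U * (N₂ + 1) ^ L ≤ n * U * (n ^ 6) ^ L :=
          Nat.mul_le_mul (Nat.mul_le_mul_right _ (by omega)) (Nat.pow_le_pow_left h1 L)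
      _ = U * (n ^ (6 * L) * n) := by rw [← pow_mul]; ring
      _ = U * n ^ (6 * (2 * κ + 1) + 1) := by rw [← pow_succ, hL]
  · -- the index
    have hn0 : (0 : ℝ) < n := by exact_mod_cast hnpos
    have hb0 : (0 : ℝ) < b := by exact_mod_cast hbpos
    have hfac : (0 : ℝ) < (n.factorial : ℝ) := by exact_mod_cast n.factorial_pos
    have hcard : Fintype.card (Idx n N N₂ b F) = N * (Fintype.card (Mon n N) *
        (Fintype.card (Mon n N) * (N₂ * ((b + 1) ^ n * F)))) := by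
      rw [Fintype.card_prod, Fintype.card_prod, Fintype.card_prod, Fintype.card_prod,
        Fintype.card_prod, Fintype.card_fun, Fintype.card_fin, Fintype.card_fin,
        Fintype.card_fin, Fintype.card_fin, Fintype.card_fin]
    rw [hcard]
    -- monotone tuples
    have hmon : (Fintype.card (Mon n N) : ℝ) ≤ (6 * (n * b ^ 3)) ^ n := by
      have h1 : (Fintype.card (Mon n N) : ℝ) * n.factorial ≤ ((N : ℝ) + n) ^ n := by
        exact_mod_cast mon_card_le n N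
      have h2 : ((N : ℝ) + n) ≤ 2 * (n ^ 2 * b ^ 3) := by
        have h3 : N + n ≤ 2 * (n ^ 2 * b ^ 3) := by
          have h4 : n ≤ n ^ 2 * b ^ 3 := by
            calc n = n * 1 := (mul_one n).symm
              _ ≤ n * (n * b ^ 3) := Nat.mul_le_mul_left _ (Nat.mul_pos hnpos (Nat.pow_pos hbpos))
              _ = n ^ 2 * b ^ 3 := by ring
          omega
        exact_mod_cast h3
      have h3 : (n : ℝ) ^ n ≤ 3 ^ n * n.factorial := by
        have h4 := Real.pow_div_factorial_le_exp (x := (n : ℝ)) hn0.le n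
        rw [div_le_iff₀ hfac] at h4
        refine h4.trans (mul_le_mul_of_nonneg_right ?_ hfac.le)
        rw [← mul_one (n : ℝ), Real.exp_nat_mul]
        refine pow_le_pow_left₀ (Real.exp_pos _).le ?_ n
        exact Real.exp_one_lt_d9.le.trans (by norm_num)
      have h5 : (Fintype.card (Mon n N) : ℝ) * n.factorial ≤
          (6 * (n * b ^ 3)) ^ n * n.factorial := by
        calc (Fintype.card (Mon n N) : ℝ) * n.factorial ≤ ((N : ℝ) + n) ^ n := h1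
          _ ≤ (2 * (n ^ 2 * b ^ 3)) ^ n := pow_le_pow_left₀ (by positivity) h2 n
          _ = (2 * (n * b ^ 3)) ^ n * (n : ℝ) ^ n := by
              rw [← mul_pow]
              congr 1
              ring
          _ ≤ (2 * (n * b ^ 3)) ^ n * (3 ^ n * n.factorial) :=
              mul_le_mul_of_nonneg_left h3 (by positivity)
          _ = (6 * (n * b ^ 3)) ^ n * n.factorial := by
              rw [← mul_assoc, ← mul_pow]
              congr 2
              ring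
      exact le_of_mul_le_mul_right h5 hfac
    -- the remaining factors
    have hrest : N * (N₂ * F) ≤ b ^ n := by
      have h1 : F ≤ 2 ^ n * (4 * n ^ 2) := by
        have e1 : n * (2 * U) ≤ n * 2 ^ n := Nat.mul_le_mul_left _ hU2n
        have e2 : (b + 1) * n ≤ 2 * n ^ 2 := by
          calc (b + 1) * n ≤ (2 * n) * n := Nat.mul_le_mul_right _ (by omega)
            _ = 2 * n ^ 2 := by ring
        obtain ⟨X, hX⟩ : ∃ X, X = 2 ^ n := ⟨_, rfl⟩
        rw [← hX] at e1 hU2n ⊢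
        have e3 : 1 ≤ X := hX ▸ Nat.pow_pos (by norm_num)
        have e4 : 1 * X ≤ n ^ 2 * X := Nat.mul_le_mul_right _ (Nat.pow_pos hnpos)
        have e5 : 2 * (n * X) ≤ n ^ 2 * X := by
          calc 2 * (n * X) ≤ n * (n * X) := Nat.mul_le_mul_right _ (by omega)
            _ = n ^ 2 * X := by ring
        have e6 : 1 ≤ n * X := Nat.mul_pos hnpos e3
        have e7 : 2 * n ^ 2 * 1 ≤ 2 * n ^ 2 * X := Nat.mul_le_mul_left _ e3
        have e8 : X * (4 * n ^ 2) = n ^ 2 * X + n ^ 2 * X + 2 * n ^ 2 * X := by ring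
        rw [hF, e8]
        omega
      have h2 : n ^ 2 * b ^ 3 * (2 * n ^ 5 * (4 * n ^ 2)) ≤ 8 * n ^ 12 := by
        calc n ^ 2 * b ^ 3 * (2 * n ^ 5 * (4 * n ^ 2)) = 8 * (n ^ 9 * b ^ 3) := by ring
          _ ≤ 8 * (n ^ 9 * n ^ 3) :=
            Nat.mul_le_mul_left _ (Nat.mul_le_mul_left _ (Nat.pow_le_pow_left hbn 3))
          _ = 8 * n ^ 12 := by ring
      have h3 : 8 * n ^ 12 ≤ 18 ^ n := by
        have aux : ∀ k : ℕ, (k + 16) ^ 4 ≤ 2 ^ (k + 16) := by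
          intro k
          induction k with
          | zero => norm_num
          | succ k ih =>
            have h4 : 2 * (k + 16) ^ 4 = (k + 1 + 16) ^ 4 +
                (k ^ 4 + 60 * k ^ 3 + 1338 * k ^ 2 + 13116 * k + 47551) := by ring
            calc (k + 1 + 16) ^ 4 ≤ 2 * (k + 16) ^ 4 := by omega
              _ ≤ 2 * 2 ^ (k + 16) := Nat.mul_le_mul_left _ ih
              _ = 2 ^ (k + 1 + 16) := by ring
        have e1 : n ^ 4 ≤ 2 ^ n := by
          obtain ⟨k, rfl⟩ : ∃ k, n = k + 16 := ⟨n - 16, by omega⟩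
          exact aux k
        have e2 : 8 ≤ 2 ^ n := by
          calc 8 = 2 ^ 3 := by norm_num
            _ ≤ 2 ^ n := Nat.pow_le_pow_right (by norm_num) (by omega)
        calc 8 * n ^ 12 = 8 * (n ^ 4) ^ 3 := by ring
          _ ≤ 2 ^ n * (2 ^ n) ^ 3 := Nat.mul_le_mul e2 (Nat.pow_le_pow_left e1 3)
          _ = 16 ^ n := by
            rw [← pow_succ', ← pow_mul, mul_comm n 4, pow_mul]
            norm_num
          _ ≤ 18 ^ n := Nat.pow_le_pow_left (by norm_num) n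
      calc N * (N₂ * F) ≤ (n ^ 2 * b ^ 3) * ((2 * n ^ 5) * (2 ^ n * (4 * n ^ 2))) := by
            rw [hN, hN₂]
            exact Nat.mul_le_mul_left _ (Nat.mul_le_mul_left _ h1)
        _ = 2 ^ n * (n ^ 2 * b ^ 3 * (2 * n ^ 5 * (4 * n ^ 2))) := by ring
        _ ≤ 2 ^ n * (8 * n ^ 12) := Nat.mul_le_mul_left _ h2
        _ ≤ 2 ^ n * 18 ^ n := Nat.mul_le_mul_left _ h3
        _ = 36 ^ n := by rw [← mul_pow]; norm_num
        _ ≤ b ^ n := Nat.pow_le_pow_left hb4 n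
    have hrest' : (N : ℝ) * (N₂ * F) ≤ (b : ℝ) ^ n := by exact_mod_cast hrest
    have hb1' : ((b : ℝ) + 1) ≤ b ^ 2 := by
      have : (36 : ℝ) ≤ b := by exact_mod_cast hb4
      nlinarith
    push_cast
    calc (N : ℝ) * ((Fintype.card (Mon n N) : ℝ) * ((Fintype.card (Mon n N) : ℝ) *
          (N₂ * (((b : ℝ) + 1) ^ n * F))))
        = (Fintype.card (Mon n N) : ℝ) ^ 2 * ((b : ℝ) + 1) ^ n * (N * (N₂ * F)) := by ring
      _ ≤ ((6 * (n * b ^ 3)) ^ n) ^ 2 * (b ^ 2) ^ n * b ^ n := by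
          gcongr
      _ = (36 ^ n * b ^ n * b ^ (8 * n)) * (n : ℝ) ^ (2 * n) := by
          have h36 : (36 : ℝ) ^ n = 6 ^ (2 * n) := by rw [pow_mul]; norm_num
          rw [h36]
          ring
      _ ≤ (b ^ n * b ^ n * b ^ (8 * n)) * (n : ℝ) ^ (2 * n) := by
          have : (36 : ℝ) ≤ b := by exact_mod_cast hb4
          gcongr
      _ = (b : ℝ) ^ (10 * n) * (n : ℝ) ^ (2 * n) := by ring

end Pool.H66.TSH
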