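import Mathlib

/-!
A modulus with few collisions (3SUM-Indexing with a free index, MP_e016b3_lc).
-/

namespace Pool.H66.TSH

open Finset

/-- ordered pairs of different elements that agree modulo `m` -/
def coll (Z : Finset ℕ) (m : ℕ) : Finset (ℕ × ℕ) :=
  (Z ×ˢ Z).filter (fun t => t.1 ≠ t.2 ∧ t.1 % m = t.2 % m)

theorem few_dvd (a b m : ℕ) (h : a % m = b % m) : m ∣ (a - b) + (b - a) := by
  rcases Nat.le_total a b with hab | hab
  · have h1 : a - b = 0 := by omega
    rw [h1, Nat.zero_add]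
    exact (Nat.modEq_iff_dvd' hab).1 h
  · have h1 : b - a = 0 := by omega
    rw [h1, Nat.add_zero]
    exact (Nat.modEq_iff_dvd' hab).1 h.symm

/-- Some modulus up to `N` has few collisions. -/
theorem exists_few (Z : Finset ℕ) (n U N D : ℕ) (hU : 1 ≤ U) (hcard : Z.card ≤ n ^ 2)
    (hlt : ∀ z ∈ Z, z < 2 * U)
    (hnum : (n : ℝ) ^ 4 * Real.log (2 * U) < (D + 1) * Chebyshev.psi N) :
    ∃ m, 1 ≤ m ∧ m ≤ N ∧ (coll Z m).card ≤ D := by
  by_contra hcon
  push Not at hcon
  have hψ : Chebyshev.psi N = ∑ m ∈ Ioc 0 N, ArithmeticFunction.vonMangoldt m := by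
    unfold Chebyshev.psi
    rw [Nat.floor_natCast]
  have h1 : ((D : ℝ) + 1) * Chebyshev.psi N ≤
      ∑ m ∈ Ioc 0 N, ArithmeticFunction.vonMangoldt m * ((coll Z m).card : ℝ) := by
    rw [hψ, mul_sum]
    refine sum_le_sum (fun m hm => ?_)
    rw [mem_Ioc] at hm
    rw [mul_comm]
    refine mul_le_mul_of_nonneg_left ?_ ArithmeticFunction.vonMangoldt_nonneg
    have := hcon m hm.1 hm.2
    have h2 : D + 1 ≤ (coll Z m).card := this
    exact_mod_cast h2
  have h2 : ∑ m ∈ Ioc 0 N, ArithmeticFunction.vonMangoldt m * ((coll Z m).card : ℝ) ≤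
      ∑ t ∈ (Z ×ˢ Z).filter (fun t => t.1 ≠ t.2), Real.log (2 * U) := by
    have e1 : ∀ m ∈ Ioc 0 N, ArithmeticFunction.vonMangoldt m * ((coll Z m).card : ℝ) =
        ∑ t ∈ (Z ×ˢ Z).filter (fun t => t.1 ≠ t.2),
          if t.1 % m = t.2 % m then ArithmeticFunction.vonMangoldt m else 0 := by
      intro m _
      have : coll Z m = ((Z ×ˢ Z).filter (fun t => t.1 ≠ t.2)).filter
          (fun t => t.1 % m = t.2 % m) := by
        unfold coll
        rw [filter_filter]
      rw [this, ← sum_filter, sum_const, nsmul_eq_mul, mul_comm]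
    rw [sum_congr rfl e1, sum_comm]
    refine sum_le_sum (fun t ht => ?_)
    obtain ⟨ht1, ht2⟩ := mem_filter.1 ht
    obtain ⟨hz1, hz2⟩ := mem_product.1 ht1
    set d := (t.1 - t.2) + (t.2 - t.1) with hd
    have hd0 : 0 < d := by omega
    have hdU : d ≤ 2 * U := by
      have e2 := hlt _ hz1
      have e3 := hlt _ hz2
      omega
    rw [← sum_filter]
    calc ∑ m ∈ (Ioc 0 N).filter (fun m => t.1 % m = t.2 % m), ArithmeticFunction.vonMangoldt m
        ≤ ∑ m ∈ d.divisors, ArithmeticFunction.vonMangoldt m := by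
          refine sum_le_sum_of_subset_of_nonneg ?_
            (fun _ _ _ => ArithmeticFunction.vonMangoldt_nonneg)
          intro m hm
          rw [Nat.mem_divisors]
          exact ⟨few_dvd _ _ _ (mem_filter.1 hm).2, by omega⟩
      _ = Real.log d := ArithmeticFunction.vonMangoldt_sum
      _ ≤ Real.log (2 * U) := by
          refine Real.log_le_log (by exact_mod_cast hd0) ?_
          exact_mod_cast hdU
  have h3 : ∑ t ∈ (Z ×ˢ Z).filter (fun t => t.1 ≠ t.2), Real.log (2 * U) ≤
      (n : ℝ) ^ 4 * Real.log (2 * U) := by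
    rw [sum_const, nsmul_eq_mul]
    refine mul_le_mul_of_nonneg_right ?_ (Real.log_nonneg ?_)
    · have h4 : ((Z ×ˢ Z).filter (fun t => t.1 ≠ t.2)).card ≤ n ^ 4 := by
        calc _ ≤ (Z ×ˢ Z).card := card_filter_le _ _
          _ = Z.card * Z.card := card_product _ _
          _ ≤ n ^ 2 * n ^ 2 := Nat.mul_le_mul hcard hcard
          _ = n ^ 4 := by ring
      exact_mod_cast h4
    · have : (1 : ℝ) ≤ U := by exact_mod_cast hU
      linarith
  linarith

/-- elements that collide with another element -/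
def badSums (Z : Finset ℕ) (m : ℕ) : Finset ℕ :=
  Z.filter (fun z => ∃ z' ∈ Z, z ≠ z' ∧ z % m = z' % m)

theorem badSums_card (Z : Finset ℕ) (m : ℕ) : (badSums Z m).card ≤ (coll Z m).card := by
  have hsub : badSums Z m ⊆ (coll Z m).image Prod.fst := by
    intro z hz
    obtain ⟨h1, z', h2, h3, h4⟩ := mem_filter.1 hz
    exact mem_image.2 ⟨(z, z'), mem_filter.2 ⟨mem_product.2 ⟨h1, h2⟩, h3, h4⟩, rfl⟩
  exact (card_le_card hsub).trans card_image_le

end Pool.H66.TSH
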