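import Pool.Agent.H66.TSH.CoreJ
import Pool.Agent.H54.TSG.ParamsG

/-!
Choice of parameters for two adaptive probes and a free header with almost `n log n` bits
(3SUM-Indexing cell probe lower bound, MP_e016b3_lc).
-/

namespace Pool.H66.TSH

open Finset Function Pool.H54.TSUM Pool.H54.TSG

/-- the numerical estimate for the configurations, with a larger factor -/
theorem num_F' (b κ C c p n S W U K : ℕ) (hp : 0 < p) (hb : 36 ≤ b)
    (hn : n = b ^ κ) (hSW : S * W ≤ U * b ^ (2 * κ + C)) (hK : b ^ (14 * κ + (C + c) + 2) ≤ K)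
    (hK1 : K ^ (24 * p) ≤ U) :
    b ^ c * ((((n ^ 2) ^ (4 * p)) ^ 3 * (9 * (2 * n) ^ 2)) *
      ((S * W) * (K ^ (4 * p) * (K ^ (4 * p) * (K ^ (4 * p) * (K ^ (4 * p) * (K ^ (4 * p) *
        (n ^ 2 * n ^ 2)))))))) ≤ U ^ 2 := by
  have hSW' : S * (W * b ^ c) ≤ U * b ^ (2 * κ + (C + c)) := by
    calc S * (W * b ^ c) = (S * W) * b ^ c := by ring
      _ ≤ (U * b ^ (2 * κ + C)) * b ^ c := Nat.mul_le_mul_right _ hSW
      _ = U * b ^ (2 * κ + (C + c)) := by rw [mul_assoc, ← pow_add]; ring_nf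
  have h := num_F b κ (C + c) p n S (W * b ^ c) U K hp hb hn hSW' hK hK1
  refine le_trans ?_ h
  generalize K ^ (4 * p) * (K ^ (4 * p) * (K ^ (4 * p) * (K ^ (4 * p) * (K ^ (4 * p) *
        (n ^ 2 * n ^ 2))))) = X
  generalize ((n ^ 2) ^ (4 * p)) ^ 3 * (9 * (2 * n) ^ 2) = Y
  calc b ^ c * (Y * ((S * W) * X)) = 1 * (Y * ((S * (W * b ^ c)) * X)) := by ring
    _ ≤ b * (Y * ((S * (W * b ^ c)) * X)) := Nat.mul_le_mul_right _ (by omega)

/-- the numerical estimate for the heavy queries, with a larger factor -/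
theorem num_b' (b κ C c q n S W U K : ℕ) (hb : 1 ≤ b) (hn : n = b ^ κ)
    (hSW : S * W ≤ U * b ^ (2 * κ + C)) (hKq : U ^ 2 ≤ (K + 1) ^ q)
    (hU : b ^ (1 + (2 * κ + (C + c)) * (q + 1) + 4 * κ * q) ≤ U) :
    b ^ c * ((S * W) * ((n ^ 2) ^ q * (n ^ 2 * (S * W)) ^ q)) ≤ U ^ q * (K + 1) ^ q := by
  have hSW' : S * (W * b ^ c) ≤ U * b ^ (2 * κ + (C + c)) := by
    calc S * (W * b ^ c) = (S * W) * b ^ c := by ring
      _ ≤ (U * b ^ (2 * κ + C)) * b ^ c := Nat.mul_le_mul_right _ hSW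
      _ = U * b ^ (2 * κ + (C + c)) := by rw [mul_assoc, ← pow_add]; ring_nf
  have h := num_b b κ (C + c) q n S (W * b ^ c) U K hn hSW' hKq hU
  refine le_trans ?_ h
  have h1 : S * W ≤ S * (W * b ^ c) :=
    Nat.mul_le_mul_left _ (Nat.le_mul_of_pos_right _ (Nat.pow_pos (by omega)))
  calc b ^ c * ((S * W) * ((n ^ 2) ^ q * (n ^ 2 * (S * W)) ^ q))
      = 1 * ((S * (W * b ^ c)) * ((n ^ 2) ^ q * (n ^ 2 * (S * W)) ^ q)) := by ring
    _ ≤ b * ((S * (W * b ^ c)) * ((n ^ 2) ^ q * (n ^ 2 * (S * (W * b ^ c))) ^ q)) := by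
        refine Nat.mul_le_mul hb (Nat.mul_le_mul_left _ (Nat.mul_le_mul_left _ ?_))
        exact Nat.pow_le_pow_left (Nat.mul_le_mul_left _ h1) q

theorem main_j (s κ C : ℕ) (hs : 10 ≤ s) (hκs : s ≤ κ) : ∃ c₀ b₀ : ℕ, ∀ b U W n S Hd θ : ℕ,
    b₀ ≤ b → b ^ c₀ ≤ U → W ≤ U * b ^ C → 0 < W →
    n = b ^ κ → S = b ^ (2 * κ - 1) → Hd ≤ b ^ θ → s * θ + 5 * κ * n ≤ s * κ * n →
    ∀ P : Fin Hd → Scheme S W,
    (∀ A : Arr n U, ∃ hd M, CorrectT (P hd) 2 A M) → False := by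
  have hκ3 : 10 ≤ κ := by omega
  obtain ⟨p, hp⟩ : ∃ p, p = 6 * κ + 1 := ⟨_, rfl⟩
  obtain ⟨q, hq⟩ : ∃ q, q = 48 * p := ⟨_, rfl⟩
  obtain ⟨m₀, hm₀⟩ : ∃ m₀, m₀ = 4 * κ := ⟨_, rfl⟩
  obtain ⟨a, ha⟩ : ∃ a, a = 4 * s ^ 2 := ⟨_, rfl⟩
  obtain ⟨v, hv⟩ : ∃ v, v = 96 * p := ⟨_, rfl⟩
  obtain ⟨c, hc⟩ : ∃ c, c = 6 * v * s * (κ + 1) := ⟨_, rfl⟩
  obtain ⟨C₂, hC₂⟩ : ∃ C₂, C₂ = 2 * (12 * p) * m₀ + (12 * p) ^ 2 + 1 := ⟨_, rfl⟩
  obtain ⟨y1, hy1⟩ : ∃ y, y = 24 * p * (14 * κ + (C + c) + 2) := ⟨_, rfl⟩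
  obtain ⟨y2, hy2⟩ : ∃ y, y = 1 + (2 * κ + (C + c)) * (q + 1) + 4 * κ * q := ⟨_, rfl⟩
  obtain ⟨c₀, hc₀⟩ : ∃ c₀, c₀ = y1 + y2 + 2 * κ := ⟨_, rfl⟩
  obtain ⟨z1, hz1⟩ : ∃ z, z = (2 * a) ^ p * ((80 * C₂) ^ (12 * p) * 216) := ⟨_, rfl⟩
  obtain ⟨z2, hz2⟩ : ∃ z, z = a * (4 * (q - 1) ^ 2 + 40) := ⟨_, rfl⟩
  obtain ⟨z3, hz3⟩ : ∃ z, z = 3 * v * s := ⟨_, rfl⟩
  obtain ⟨z4, hz4⟩ : ∃ z, z = s * (4 * κ + 1) * (κ * (4 * κ) + 1) := ⟨_, rfl⟩
  refine ⟨c₀, 36 + (z1 + 1) + z2 + z3 + z4 + s, ?_⟩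
  intro b U W n S Hd θ hb hU hW hWpos hn hS hHd hθ P hP
  have hspos : 0 < s := by omega
  have hapos : 0 < a := by rw [ha]; positivity
  have hppos : 0 < p := by omega
  have hvpos : 0 < v := by omega
  have hb1 : 36 ≤ b := by omega
  have hb3 : z1 < b := by omega
  have hb4 : z2 ≤ b := by omega
  have hb5 : z3 ≤ b := by omega
  have hb6 : z4 ≤ b := by omega
  have hb7 : s ≤ b := by omega
  clear hb
  have hbpos : 0 < b := by omega
  have hbn : b ≤ n := by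
    calc b = b ^ 1 := (pow_one b).symm
      _ ≤ b ^ κ := Nat.pow_le_pow_right hbpos (by omega)
      _ = n := hn.symm
  have hSpos : 0 < S := hS ▸ Nat.pow_pos hbpos
  have hnpos : 0 < n := hn ▸ Nat.pow_pos hbpos
  have hUn : ∀ y, y ≤ c₀ → b ^ y ≤ U := fun y hy => (Nat.pow_le_pow_right hbpos hy).trans hU
  have hUpos : 0 < U := lt_of_lt_of_le (Nat.pow_pos hbpos) hU
  have hS2 : S ≤ b ^ (2 * κ) := by
    rw [hS]
    exact Nat.pow_le_pow_right hbpos (by omega)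
  have hSb : S * b = n ^ 2 := by
    rw [hS, hn, ← pow_succ, ← pow_mul]; congr 1; omega
  have hSn : S = n * b ^ (κ - 1) := by
    rw [hS, hn, ← pow_add]; congr 1; omega
  have hSW : S * W ≤ U * b ^ (2 * κ + C) := by
    calc S * W ≤ b ^ (2 * κ) * (U * b ^ C) := Nat.mul_le_mul hS2 hW
      _ = U * b ^ (2 * κ + C) := by rw [pow_add]; ring
  -- the root of U
  obtain ⟨K, hK1, hK2⟩ := exists_root (24 * p) (by omega) U
  have hKb : b ^ (14 * κ + (C + c) + 2) ≤ K := by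
    have h1 : (b ^ (14 * κ + (C + c) + 2)) ^ (24 * p) < (K + 1) ^ (24 * p) := by
      calc (b ^ (14 * κ + (C + c) + 2)) ^ (24 * p) = b ^ y1 := by
            rw [← pow_mul, hy1]; congr 1; ring
        _ ≤ U := hUn _ (by omega)
        _ < (K + 1) ^ (24 * p) := hK2
    exact Nat.lt_succ_iff.1 (lt_of_pow_lt_pow_left₀ _ (Nat.zero_le _) h1)
  have hKpos : 0 < K := lt_of_lt_of_le (Nat.pow_pos hbpos) hKb
  have hKq : U ^ 2 ≤ (K + 1) ^ q := by
    calc U ^ 2 ≤ ((K + 1) ^ (24 * p)) ^ 2 := Nat.pow_le_pow_left hK2.le 2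
      _ = (K + 1) ^ q := by rw [← pow_mul, hq]; congr 1; omega
  have hNb := num_b' b κ C c q n S W U K hbpos hn hSW hKq (hUn _ (by omega))
  have hNF := num_F' b κ C c p n S W U K hppos hb1 hn hSW hKb hK1
  clear hKb hKq hK1 hK2
  -- virtual blocks
  obtain ⟨rv, hrv⟩ : ∃ rv, rv = U / S := ⟨_, rfl⟩
  have hSU : S ≤ U := hS2.trans (hUn _ (by omega))
  have hrvpos : 0 < rv := hrv ▸ Nat.div_pos hSU hSpos
  have hrv1 : rv * S ≤ U := hrv ▸ Nat.div_mul_le_self _ _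
  have hblocks : 2 * U ≤ rv * (4 * S) := by
    have h1 := Nat.lt_div_mul_add (a := U) hSpos
    rw [← hrv] at h1
    have h2 : S ≤ rv * S := Nat.le_mul_of_pos_left _ hrvpos
    have h3 : rv * (4 * S) = 4 * (rv * S) := by ring
    omega
  -- density
  obtain ⟨y, hy⟩ : ∃ y, y = n / s := ⟨_, rfl⟩
  have hy1' : s * y ≤ n := hy ▸ Nat.mul_div_le _ _
  have hy2' : n ≤ 2 * s * y := by
    have h1 := Nat.lt_div_mul_add (a := n) hspos
    rw [← hy] at h1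
    have h2 : 0 < y := hy ▸ Nat.div_pos (hb7.trans hbn) hspos
    have h3 : s ≤ y * s := Nat.le_mul_of_pos_left _ h2
    have h4 : 2 * s * y = y * s + y * s := by ring
    omega
  obtain ⟨ω, hω⟩ : ∃ ω, ω = b / a := ⟨_, rfl⟩
  have hω1 : 4 * (q - 1) ^ 2 + 40 ≤ ω := by
    rw [hω, Nat.le_div_iff_mul_le hapos, mul_comm, ← hz2]
    exact hb4
  have hωpos : 0 < ω := by omega
  have haω : a * ω ≤ b := hω ▸ Nat.mul_div_le _ _
  have hωS : S * ω ≤ y ^ 2 := by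
    have h1 : a * (S * ω) ≤ a * y ^ 2 := by
      calc a * (S * ω) = S * (a * ω) := by ring
        _ ≤ S * b := Nat.mul_le_mul_left _ haω
        _ = n ^ 2 := hSb
        _ ≤ (2 * s * y) ^ 2 := Nat.pow_le_pow_left hy2' 2
        _ = a * y ^ 2 := by rw [ha]; ring
    exact Nat.le_of_mul_le_mul_left h1 hapos
  have hnum : (80 * (2 * (12 * p) * m₀ + (12 * p) ^ 2 + 1)) ^ (12 * p) * (216 * S ^ 3) <
      ω ^ p := by
    rw [← hC₂]
    have h1 : b ≤ 2 * a * ω := by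
      have h2 := Nat.lt_div_mul_add (a := b) hapos
      rw [← hω] at h2
      have h3 : a ≤ ω * a := Nat.le_mul_of_pos_left _ hωpos
      calc b ≤ ω * a + a := h2.le
        _ ≤ ω * a + ω * a := Nat.add_le_add_left h3 _
        _ = 2 * a * ω := by ring
    have h2 : S ^ 3 ≤ b ^ (6 * κ) := by
      calc S ^ 3 ≤ (b ^ (2 * κ)) ^ 3 := Nat.pow_le_pow_left hS2 3
        _ = b ^ (6 * κ) := by rw [← pow_mul]; congr 1; ring
    obtain ⟨u1, hu1⟩ : ∃ u, u = (80 * C₂) ^ (12 * p) := ⟨_, rfl⟩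
    obtain ⟨u2, hu2⟩ : ∃ u, u = (2 * a) ^ p := ⟨_, rfl⟩
    rw [← hu1]
    rw [← hu1, ← hu2] at hz1
    have h3 : (u1 * (216 * S ^ 3)) * u2 < ω ^ p * u2 := by
      calc (u1 * (216 * S ^ 3)) * u2
          ≤ (u1 * (216 * b ^ (6 * κ))) * u2 :=
            Nat.mul_le_mul_right _ (Nat.mul_le_mul_left _ (Nat.mul_le_mul_left _ h2))
        _ = z1 * b ^ (6 * κ) := by rw [hz1]; ring
        _ < b * b ^ (6 * κ) := Nat.mul_lt_mul_of_pos_right hb3 (Nat.pow_pos hbpos)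
        _ = b ^ p := by rw [hp, pow_succ, mul_comm]
        _ ≤ (2 * a * ω) ^ p := Nat.pow_le_pow_left h1 p
        _ = ω ^ p * u2 := by rw [mul_pow, mul_comm, hu2]
    exact Nat.lt_of_mul_lt_mul_right h3
  -- stars
  obtain ⟨g, hg⟩ : ∃ g, g = 4 * κ * κ - 7 * κ := ⟨_, rfl⟩
  have hg1 : g + 7 * κ = 4 * κ * κ := by
    have : 7 * κ ≤ 4 * κ * κ := Nat.mul_le_mul_right _ (by omega)
    omega
  have hNd : b ^ g * ((2 * n * (5 * S)) * (n ^ m₀ * rv ^ m₀)) ≤ U ^ m₀ := by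
    have h1 : n * rv * b ^ (κ - 1) ≤ U := by
      calc n * rv * b ^ (κ - 1) = rv * (n * b ^ (κ - 1)) := by ring
        _ = rv * S := by rw [← hSn]
        _ ≤ U := hrv1
    have h2 : b ^ g * (2 * n * (5 * S)) ≤ (b ^ (κ - 1)) ^ m₀ := by
      calc b ^ g * (2 * n * (5 * S)) = 10 * (b ^ g * (n * S)) := by ring
        _ ≤ b * (b ^ g * (n * S)) := Nat.mul_le_mul_right _ (by omega)
        _ = b ^ (1 + (g + (κ + (2 * κ - 1)))) := by
          rw [hn, hS, pow_add b 1, pow_add b g, pow_add b κ, pow_one]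
        _ ≤ b ^ ((κ - 1) * m₀) := by
          refine Nat.pow_le_pow_right hbpos ?_
          have h3 : (κ - 1) * m₀ = g + 3 * κ := by
            obtain ⟨t, rfl⟩ : ∃ t, κ = t + 1 := ⟨κ - 1, by omega⟩
            rw [hm₀, Nat.add_sub_cancel]
            have h4 : t * (4 * (t + 1)) + 4 * (t + 1) = 4 * (t + 1) * (t + 1) := by ring
            omega
          omega
        _ = (b ^ (κ - 1)) ^ m₀ := by rw [← pow_mul]
    calc b ^ g * ((2 * n * (5 * S)) * (n ^ m₀ * rv ^ m₀))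
        = (b ^ g * (2 * n * (5 * S))) * (n * rv) ^ m₀ := by rw [mul_pow]; ring
      _ ≤ (b ^ (κ - 1)) ^ m₀ * (n * rv) ^ m₀ := Nat.mul_le_mul_right _ h2
      _ = (n * rv * b ^ (κ - 1)) ^ m₀ := by rw [← mul_pow, mul_comm]
      _ ≤ U ^ m₀ := Nat.pow_le_pow_left h1 m₀
  -- numbers of gadgets
  obtain ⟨k, hk⟩ : ∃ k, k = n / (3 * v * s) := ⟨_, rfl⟩
  obtain ⟨k₄, hk₄⟩ : ∃ k₄, k₄ = (n - 2 * y) / (m₀ + 1) := ⟨_, rfl⟩
  have hz3pos : 0 < 3 * v * s := by positivity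
  have hk1 : 3 * v * s * k ≤ n := hk ▸ Nat.mul_div_le _ _
  have hk2 : n ≤ 2 * (3 * v * s) * k := by
    have h1 := Nat.lt_div_mul_add (a := n) hz3pos
    rw [← hk] at h1
    have h2 : 0 < k := hk ▸ Nat.div_pos ((hz3 ▸ hb5).trans hbn) hz3pos
    have h3 : 3 * v * s ≤ k * (3 * v * s) := Nat.le_mul_of_pos_left _ h2
    have h4 : 2 * (3 * v * s) * k = k * (3 * v * s) + k * (3 * v * s) := by ring
    omega
  have hk4 : k₄ * (m₀ + 1) ≤ n - 2 * y := hk₄ ▸ Nat.div_mul_le_self _ _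
  have hkv : 3 * (k * v) ≤ y := by
    rw [hy, Nat.le_div_iff_mul_le hspos]
    calc 3 * (k * v) * s = 3 * v * s * k := by ring
      _ ≤ n := hk1
  have h2y : 2 * y ≤ n := by
    calc 2 * y ≤ s * y := Nat.mul_le_mul_right _ (by omega)
      _ ≤ n := hy1'
  have hB : 3 * (k * v) + k₄ * (m₀ + 1) + y ≤ n := by omega
  -- the number of header values
  have hθn : θ ≤ κ * n := by
    have h1 : s * θ ≤ s * (κ * n) := by
      have : s * (κ * n) = s * κ * n := by ring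
      omega
    exact Nat.le_of_mul_le_mul_left h1 hspos
  have hQ1 : b ^ (θ + 1) ≤ (b ^ c) ^ k := by
    rw [← pow_mul]
    refine Nat.pow_le_pow_right hbpos ?_
    calc θ + 1 ≤ κ * n + n := Nat.add_le_add hθn hnpos
      _ = (κ + 1) * n := by ring
      _ ≤ (κ + 1) * (2 * (3 * v * s) * k) := Nat.mul_le_mul_left _ hk2
      _ = c * k := by rw [hc]; ring
  have hQ4 : b ^ (θ + 1) ≤ (b ^ g) ^ k₄ := by
    rw [← pow_mul]
    refine Nat.pow_le_pow_right hbpos ?_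
    -- lower bound for k₄
    have h1 : (s - 2) * n ≤ s * (4 * κ + 1) * k₄ + s * (4 * κ + 1) := by
      have h2 := Nat.lt_div_mul_add (a := n - 2 * y) (b := m₀ + 1) (by omega)
      rw [← hk₄] at h2
      have h3 : n ≤ k₄ * (m₀ + 1) + (m₀ + 1) + 2 * y := by omega
      have h4 : s * n ≤ s * (k₄ * (m₀ + 1) + (m₀ + 1) + 2 * y) := Nat.mul_le_mul_left _ h3
      have h5 : s * (k₄ * (m₀ + 1) + (m₀ + 1) + 2 * y) =
          (s * (4 * κ + 1) * k₄ + s * (4 * κ + 1)) + 2 * (s * y) := by rw [hm₀]; ring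
      have h6 : (s - 2) * n + 2 * n = s * n := by
        rw [← Nat.add_mul]; congr 1; omega
      omega
    have hz4n : z4 ≤ n := hb6.trans hbn
    have h7 : s * (4 * κ + 1) * (θ + 1) ≤ s * (4 * κ + 1) * (g * k₄) := by
      obtain ⟨t, rfl⟩ : ∃ t, s = t + 5 := ⟨s - 5, by omega⟩
      have e1 : t + 5 - 2 = t + 3 := by omega
      rw [e1] at h1
      have hθ' : (t + 5) * θ ≤ t * (κ * n) := by
        have e2 : (t + 5) * κ * n = t * (κ * n) + 5 * κ * n := by ring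
        omega
      have e3 : (t + 5) * (4 * κ + 1) * (θ + 1) =
          (4 * κ + 1) * ((t + 5) * θ) + (t + 5) * (4 * κ + 1) := by ring
      have e4 : (t + 5) * (4 * κ + 1) * (g * k₄) = g * ((t + 5) * (4 * κ + 1) * k₄) := by ring
      rw [e3, e4]
      have h8 : g * ((t + 3) * n) ≤ g * ((t + 5) * (4 * κ + 1) * k₄) +
          g * ((t + 5) * (4 * κ + 1)) := by
        rw [← Nat.mul_add]
        exact Nat.mul_le_mul_left _ h1
      have h9 : (4 * κ + 1) * ((t + 5) * θ) ≤ (4 * κ + 1) * (t * (κ * n)) :=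
        Nat.mul_le_mul_left _ hθ'
      have h10 : g ≤ 4 * κ * κ := by omega
      have h11 : (4 * κ + 1) * (t * (κ * n)) + (t + 5) * (4 * κ + 1) +
          g * ((t + 5) * (4 * κ + 1)) ≤ g * ((t + 3) * n) := by
        have h12 : g * ((t + 5) * (4 * κ + 1)) ≤ 4 * κ * κ * ((t + 5) * (4 * κ + 1)) :=
          Nat.mul_le_mul_right _ h10
        have h13 : (t + 5) * (4 * κ + 1) + 4 * κ * κ * ((t + 5) * (4 * κ + 1)) = z4 := by
          rw [hz4]; ring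
        have h14 : g * ((t + 3) * n) + 7 * κ * ((t + 3) * n) = 4 * κ * κ * ((t + 3) * n) := by
          rw [← hg1]; ring
        have h15 : (4 * κ + 1) * (t * (κ * n)) + n + 7 * κ * ((t + 3) * n) ≤
            4 * κ * κ * ((t + 3) * n) := by
          have h16 : (4 * κ + 1) * (t * κ) + 1 + 7 * κ * (t + 3) ≤ 4 * κ * κ * (t + 3) := by
            have h17 : (t + 5) * κ ≤ κ * κ := Nat.mul_le_mul_right _ hκs
            nlinarith
          calc (4 * κ + 1) * (t * (κ * n)) + n + 7 * κ * ((t + 3) * n)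
              = ((4 * κ + 1) * (t * κ) + 1 + 7 * κ * (t + 3)) * n := by ring
            _ ≤ (4 * κ * κ * (t + 3)) * n := Nat.mul_le_mul_right _ h16
            _ = 4 * κ * κ * ((t + 3) * n) := by ring
        omega
      omega
    exact Nat.le_of_mul_le_mul_left h7 (by positivity)
  have hHd4 : Hd * 4 < b ^ (θ + 1) := by
    calc Hd * 4 ≤ b ^ θ * 4 := Nat.mul_le_mul_right _ hHd
      _ < b ^ θ * b := Nat.mul_lt_mul_of_pos_left (by omega) (Nat.pow_pos hbpos)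
      _ = b ^ (θ + 1) := (pow_succ _ _).symm
  exact coreJ P hP K q p m₀ rv ω y k v k₄ (b ^ c) (b ^ g) (b ^ (θ + 1))
    hUpos hKpos hWpos hSpos hppos hrvpos (by omega) (by omega) hblocks hB hωS
    (by omega) (by omega) hnum hNb hNF hNd hQ1 hQ4 hHd4

end Pool.H66.TSH
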