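import Pool.Agent.H55.FreeIdx.Adaptive
import Pool.Agent.H66.TSH.ParamsJ

/-!
Two adaptive probes with a free index of almost `n log₂ n` bits (MP_e016b3_lc).
-/

namespace Pool.H66.TSH

open Pool.Agent.H55.FreeIdx Pool.H54.TSG Pool.H54.TSUM

/-- the index is small in terms of the root of `n` -/
theorem index_small (s κ b n H : ℕ) (hs : 10 ≤ s) (hκ : 1 ≤ κ) (hb1 : 2 ^ s ≤ b)
    (hb2 : κ * (s + 1) ≤ b) (hn1 : b ^ κ ≤ n) (hn2 : n < (b + 1) ^ κ)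
    (hH : (H : ℝ) ≤ (n : ℝ) ^ ((1 - 10 / (s : ℝ)) * n)) :
    H ≤ b ^ ((s - 5) * κ * b ^ κ / s) := by
  have hs0 : (0 : ℝ) < s := by exact_mod_cast (by omega : 0 < s)
  have hs10 : (10 : ℝ) ≤ s := by exact_mod_cast hs
  have hbs : s ≤ b := (Nat.lt_two_pow_self).le.trans hb1
  have hbpos : 0 < b := by omega
  have hb0 : (0 : ℝ) < b := by exact_mod_cast hbpos
  have hb1r : (1 : ℝ) ≤ b := by exact_mod_cast hbpos
  have hκr : (1 : ℝ) ≤ κ := by exact_mod_cast hκ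
  have hnpos : 0 < n := lt_of_lt_of_le (Nat.pow_pos hbpos) hn1
  have hn1r : (1 : ℝ) ≤ n := by exact_mod_cast hnpos
  -- b + 1 is at most b ^ (1 + 1 / s)
  have hbb : ((b : ℝ) + 1) ≤ (b : ℝ) ^ (1 + 1 / (s : ℝ)) := by
    have h1 : (b + 1) ^ s ≤ b ^ (s + 1) := by
      calc (b + 1) ^ s ≤ (2 * b) ^ s := Nat.pow_le_pow_left (by omega) s
        _ = 2 ^ s * b ^ s := mul_pow _ _ _
        _ ≤ b * b ^ s := Nat.mul_le_mul_right _ hb1
        _ = b ^ (s + 1) := by rw [pow_succ, mul_comm]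
    have h2 : ((b : ℝ) + 1) ^ s ≤ ((b : ℝ) ^ (1 + 1 / (s : ℝ))) ^ s := by
      rw [← Real.rpow_natCast ((b : ℝ) ^ (1 + 1 / (s : ℝ))) s, ← Real.rpow_mul hb0.le]
      have e1 : (1 + 1 / (s : ℝ)) * s = ((s + 1 : ℕ) : ℝ) := by
        push_cast; field_simp
      rw [e1, Real.rpow_natCast]
      exact_mod_cast h1
    exact le_of_pow_le_pow_left₀ (by omega) (Real.rpow_nonneg hb0.le _) h2
  -- (b + 1) ^ κ is at most (1 + 1 / s) b ^ κ
  have hbκ : ((b : ℝ) + 1) ^ κ ≤ (1 + 1 / (s : ℝ)) * (b : ℝ) ^ κ := by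
    have hb10 : (0 : ℝ) < (b : ℝ) + 1 := by linarith
    have h1 := one_add_mul_le_pow (a := -(1 / ((b : ℝ) + 1)))
      (by
        have : 1 / ((b : ℝ) + 1) ≤ 1 := by
          rw [div_le_one hb10]; linarith
        linarith) κ
    have h2 : 1 + -(1 / ((b : ℝ) + 1)) = b / (b + 1) := by
      field_simp; ring
    rw [h2, div_pow] at h1
    have h3 : (s : ℝ) / (s + 1) ≤ 1 + (κ : ℝ) * -(1 / ((b : ℝ) + 1)) := by
      have h4 : (κ : ℝ) * (1 / ((b : ℝ) + 1)) ≤ 1 / (s + 1) := by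
        rw [mul_one_div, div_le_div_iff₀ hb10 (by linarith)]
        have : (κ : ℝ) * (s + 1) ≤ b := by exact_mod_cast hb2
        linarith
      have h5 : (s : ℝ) / (s + 1) = 1 - 1 / (s + 1) := by
        field_simp; ring
      rw [h5]
      linarith
    have h6 := h3.trans h1
    rw [div_le_div_iff₀ (by linarith) (by positivity)] at h6
    have h7 : (1 + 1 / (s : ℝ)) * (b : ℝ) ^ κ = (b ^ κ * (s + 1)) / s := by
      field_simp
    rw [h7, le_div_iff₀ hs0]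
    linarith
  have hnb : (n : ℝ) ≤ (1 + 1 / (s : ℝ)) * (b : ℝ) ^ κ := by
    refine le_trans ?_ hbκ
    exact_mod_cast hn2.le
  have hη : (0 : ℝ) ≤ 1 - 10 / (s : ℝ) := by
    rw [sub_nonneg, div_le_one hs0]; exact hs10
  -- the exponent
  set θ := (s - 5) * κ * b ^ κ / s with hθ
  have hθr : (1 - 8 / (s : ℝ)) * κ * (b : ℝ) ^ κ ≤ (θ : ℝ) := by
    have h1 := Nat.lt_div_mul_add (a := (s - 5) * κ * b ^ κ) (b := s) (by omega)
    rw [← hθ] at h1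
    have h2 : (((s - 5) * κ * b ^ κ : ℕ) : ℝ) < θ * s + s := by exact_mod_cast h1
    rw [Nat.cast_mul, Nat.cast_mul, Nat.cast_sub (by omega)] at h2
    push_cast at h2
    have h3 : (s : ℝ) ≤ (b : ℝ) ^ κ := by
      have : s ≤ b ^ κ := hbs.trans (Nat.le_self_pow (by omega) b)
      exact_mod_cast this
    have h4 : (s : ℝ) ≤ κ * (b : ℝ) ^ κ := by nlinarith
    have h5 : (1 - 8 / (s : ℝ)) * κ * (b : ℝ) ^ κ = ((s - 8) * κ * (b : ℝ) ^ κ) / s := by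
      field_simp
    rw [h5, div_le_iff₀ hs0]
    have h6 : ((s : ℝ) - 5) * κ * (b : ℝ) ^ κ = (s - 8) * κ * (b : ℝ) ^ κ + 3 * (κ * (b : ℝ) ^ κ) := by
      ring
    rw [h6] at h2
    linarith
  have hreal : (H : ℝ) ≤ (b : ℝ) ^ θ := by
    calc (H : ℝ) ≤ (n : ℝ) ^ ((1 - 10 / (s : ℝ)) * n) := hH
      _ ≤ (((b : ℝ) + 1) ^ κ) ^ ((1 - 10 / (s : ℝ)) * n) := by
        refine Real.rpow_le_rpow (by linarith) ?_ (by positivity)
        exact_mod_cast hn2.le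
      _ = ((b : ℝ) + 1) ^ ((κ : ℝ) * ((1 - 10 / (s : ℝ)) * n)) := by
        rw [← Real.rpow_natCast, ← Real.rpow_mul (by linarith)]
      _ ≤ ((b : ℝ) ^ (1 + 1 / (s : ℝ))) ^ ((κ : ℝ) * ((1 - 10 / (s : ℝ)) * n)) :=
        Real.rpow_le_rpow (by linarith) hbb (by positivity)
      _ = (b : ℝ) ^ ((1 + 1 / (s : ℝ)) * ((κ : ℝ) * ((1 - 10 / (s : ℝ)) * n))) := by
        rw [← Real.rpow_mul hb0.le]
      _ ≤ (b : ℝ) ^ (θ : ℝ) := by
        refine Real.rpow_le_rpow_of_exponent_le hb1r (le_trans ?_ hθr)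
        calc (1 + 1 / (s : ℝ)) * ((κ : ℝ) * ((1 - 10 / (s : ℝ)) * n))
            ≤ (1 + 1 / (s : ℝ)) * ((κ : ℝ) * ((1 - 10 / (s : ℝ)) *
                ((1 + 1 / (s : ℝ)) * (b : ℝ) ^ κ))) := by gcongr
          _ = ((1 + 1 / (s : ℝ)) ^ 2 * (1 - 10 / (s : ℝ))) * (κ * (b : ℝ) ^ κ) := by ring
          _ ≤ (1 - 8 / (s : ℝ)) * (κ * (b : ℝ) ^ κ) := by
            refine mul_le_mul_of_nonneg_right ?_ (by positivity)
            have ht : 0 < 1 / (s : ℝ) := by positivity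
            have e1 : 10 / (s : ℝ) = 10 * (1 / (s : ℝ)) := by ring
            have e2 : 8 / (s : ℝ) = 8 * (1 / (s : ℝ)) := by ring
            rw [e1, e2]
            generalize 1 / (s : ℝ) = t at *
            have h3 : 0 < t ^ 3 := by positivity
            nlinarith [sq_nonneg t]
          _ = (1 - 8 / (s : ℝ)) * κ * (b : ℝ) ^ κ := by ring
      _ = (b : ℝ) ^ θ := Real.rpow_natCast _ _
  exact_mod_cast hreal

/-- Two adaptive probes and a free index of `η n log₂ n` bits, for every `η < 1`. -/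
theorem two_probes : ∀ ε : ℝ, 0 < ε → ∀ η : ℝ, η < 1 → ∀ C : ℕ, ∃ c₀ n₀ : ℕ,
    ∀ n U S W H : ℕ, n₀ ≤ n → n ^ c₀ ≤ U → W ≤ U * n ^ C → (H : ℝ) ≤ (n : ℝ) ^ (η * n) →
      Solvable n U S W H 2 → (n : ℝ) ^ (2 - ε) < (S : ℝ) := by
  intro ε hε η hη C
  obtain ⟨s₀, hs₀⟩ := exists_nat_ge (10 / (1 - η))
  obtain ⟨s, hs⟩ : ∃ s, s = s₀ + 10 := ⟨_, rfl⟩
  obtain ⟨x₀, hx₀⟩ := exists_nat_ge (2 / ε)
  obtain ⟨κ, hκ⟩ : ∃ κ, κ = x₀ + s := ⟨_, rfl⟩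
  have hκpos : 0 < κ := by omega
  have hs0 : (0 : ℝ) < s := by exact_mod_cast (by omega : 0 < s)
  have hηs : η ≤ 1 - 10 / (s : ℝ) := by
    have h1 : 10 / (1 - η) ≤ s := by
      refine hs₀.trans ?_
      exact_mod_cast (by omega : s₀ ≤ s)
    rw [div_le_iff₀ (by linarith)] at h1
    have h2 : 10 / (s : ℝ) ≤ 1 - η := by
      rw [div_le_iff₀ hs0]; linarith
    linarith
  obtain ⟨c₀, b₀, hmain⟩ := main_j s κ (2 * κ * C) (by omega) (by omega)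
  obtain ⟨y₁, hy₁⟩ : ∃ y : ℕ, y = 2 ^ (2 * κ) := ⟨_, rfl⟩
  obtain ⟨y₂, hy₂⟩ : ∃ y : ℕ, y = 2 ^ s := ⟨_, rfl⟩
  obtain ⟨y₃, hy₃⟩ : ∃ y : ℕ, y = κ * (s + 1) := ⟨_, rfl⟩
  obtain ⟨y₀, hy₀⟩ : ∃ y₀ : ℕ, y₀ = y₁ + y₂ + y₃ := ⟨_, rfl⟩
  refine ⟨c₀, (b₀ + y₀ + 2) ^ κ, ?_⟩
  rintro n U S W H hn hU hW hH ⟨P, hP⟩
  by_contra hcon
  rw [not_lt] at hcon
  obtain ⟨b, hb1, hb2⟩ := exists_root κ hκpos n
  have hb : b₀ + y₀ + 2 ≤ b := by
    have h1 : (b₀ + y₀ + 2) ^ κ < (b + 1) ^ κ := lt_of_le_of_lt hn hb2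
    exact Nat.lt_succ_iff.1 (lt_of_pow_lt_pow_left₀ _ (Nat.zero_le _) h1)
  have hbpos : 0 < b := by omega
  have hb3 : n ≤ (2 * b) ^ κ := hb2.le.trans (Nat.pow_le_pow_left (by omega) κ)
  have h2b : ∀ y, n ^ y ≤ b ^ (2 * κ * y) := by
    intro y
    calc n ^ y ≤ ((2 * b) ^ κ) ^ y := Nat.pow_le_pow_left hb3 y
      _ ≤ ((b * b) ^ κ) ^ y :=
        Nat.pow_le_pow_left (Nat.pow_le_pow_left (Nat.mul_le_mul_right _ (by omega)) κ) y
      _ = b ^ (2 * κ * y) := by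
        rw [← pow_two, ← pow_mul, ← pow_mul]; congr 1; ring
  have hbn : b ≤ n := by
    calc b = b ^ 1 := (pow_one b).symm
      _ ≤ b ^ κ := Nat.pow_le_pow_right hbpos hκpos
      _ ≤ n := hb1
  have hnpos : 0 < n := by omega
  have hn1 : (1 : ℝ) ≤ n := by exact_mod_cast hnpos
  have hUpos : 0 < U := lt_of_lt_of_le (Nat.pow_pos hnpos) hU
  -- the index is small
  have hHb : H ≤ b ^ ((s - 5) * κ * b ^ κ / s) := by
    refine index_small s κ b n H (by omega) hκpos (by rw [← hy₂]; omega) (by rw [← hy₃]; omega)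
      hb1 hb2 (hH.trans ?_)
    refine Real.rpow_le_rpow_of_exponent_le hn1 ?_
    exact mul_le_mul_of_nonneg_right hηs (by linarith)
  have hθ : s * ((s - 5) * κ * b ^ κ / s) + 5 * κ * b ^ κ ≤ s * κ * b ^ κ := by
    have h1 : s * ((s - 5) * κ * b ^ κ / s) ≤ (s - 5) * κ * b ^ κ := Nat.mul_div_le _ _
    have h2 : (s - 5) * κ * b ^ κ + 5 * κ * b ^ κ = s * κ * b ^ κ := by
      rw [← Nat.add_mul, ← Nat.add_mul]
      congr 2
      omega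
    omega
  -- the memory is small
  have hSle : S ≤ b ^ (2 * κ - 1) := by
    have hκr : (0 : ℝ) < κ := by exact_mod_cast hκpos
    have hκε : 2 ≤ (κ : ℝ) * ε := by
      have h1 : 2 ≤ (x₀ : ℝ) * ε := by
        rw [div_le_iff₀ hε] at hx₀
        exact hx₀
      have h2 : (x₀ : ℝ) ≤ κ := by exact_mod_cast (by omega : x₀ ≤ κ)
      nlinarith
    have hexp : (2 - ε) ≤ ((2 * κ - 2 : ℕ) : ℝ) / κ := by
      rw [Nat.cast_sub (by omega), le_div_iff₀ hκr]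
      push_cast
      nlinarith
    have hreal : (S : ℝ) ≤ ((2 * b : ℕ) : ℝ) ^ (2 * κ - 2) := by
      calc (S : ℝ) ≤ (n : ℝ) ^ (2 - ε) := hcon
        _ ≤ (n : ℝ) ^ (((2 * κ - 2 : ℕ) : ℝ) / κ) := Real.rpow_le_rpow_of_exponent_le hn1 hexp
        _ ≤ (((2 * b : ℕ) : ℝ) ^ κ) ^ (((2 * κ - 2 : ℕ) : ℝ) / κ) := by
          refine Real.rpow_le_rpow (by positivity) ?_ (by positivity)
          exact_mod_cast hb3
        _ = ((2 * b : ℕ) : ℝ) ^ (2 * κ - 2) := by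
          rw [← Real.rpow_natCast (((2 * b : ℕ) : ℝ)) κ, ← Real.rpow_mul (by positivity),
            mul_div_cancel₀ _ hκr.ne', Real.rpow_natCast]
    have hnat : S ≤ (2 * b) ^ (2 * κ - 2) := by exact_mod_cast hreal
    calc S ≤ (2 * b) ^ (2 * κ - 2) := hnat
      _ = 2 ^ (2 * κ - 2) * b ^ (2 * κ - 2) := mul_pow _ _ _
      _ ≤ b * b ^ (2 * κ - 2) := by
        refine Nat.mul_le_mul_right _ ?_
        have h1 : 2 ^ (2 * κ - 2) ≤ 2 ^ (2 * κ) := Nat.pow_le_pow_right (by norm_num) (by omega)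
        rw [← hy₁] at h1
        omega
      _ = b ^ (2 * κ - 1) := by
        rw [← pow_succ']; congr 1; omega
  have hWpos : 0 < W := by
    obtain ⟨i, M, _⟩ := hP (fun _ => ⟨0, hUpos⟩) (fun _ => ⟨0, hUpos⟩)
    exact lt_of_le_of_lt (Nat.zero_le _) (M (P.addr i 0 [])).isLt
  have hb0 : b₀ ≤ b := by omega
  refine hmain b U W (b ^ κ) (b ^ (2 * κ - 1)) H ((s - 5) * κ * b ^ κ / s) hb0 ?_ ?_ hWpos rfl
    rfl hHb hθ (fun i => fixIdx P i _ hSle)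
    (fun A => transferI P 2 hP _ (b ^ κ) hSle hb1 (Nat.pow_pos hbpos) A)
  · exact (Nat.pow_le_pow_left hbn c₀).trans hU
  · exact hW.trans (Nat.mul_le_mul_left _ (h2b C))

end Pool.H66.TSH
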