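import Pool.Agent.H66.TSH.DictNum

/-!
Two probes with a free index of `(2 + δ) n log₂ n` bits (3SUM-Indexing with a free index,
MP_e016b3_lc).
-/

namespace Pool.H66.TSH

open Finset Function Pool.Agent.H55.FreeIdx

theorem exp_wins (κ : ℕ) : ∃ b₁ : ℕ, ∀ b, b₁ ≤ b → 1 + 2 * (2 * b) ^ (2 * κ) ≤ 2 ^ b := by
  have h1 := tendsto_pow_const_div_const_pow_of_one_lt (2 * κ) (r := (2 : ℝ)) (by norm_num)
  have h2 : ∀ᶠ b : ℕ in Filter.atTop,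
      (b : ℝ) ^ (2 * κ) / 2 ^ b < 1 / 2 ^ (2 * κ + 2) :=
    h1.eventually_lt_const (by positivity)
  obtain ⟨b₁, hb₁⟩ := Filter.eventually_atTop.1 h2
  refine ⟨b₁ + 1, fun b hb => ?_⟩
  have h3 := hb₁ b (by omega)
  rw [div_lt_div_iff₀ (by positivity) (by positivity), one_mul] at h3
  have h4 : b ^ (2 * κ) * 2 ^ (2 * κ + 2) < 2 ^ b := by exact_mod_cast h3
  have h5 : 1 ≤ (2 * b) ^ (2 * κ) := Nat.pow_pos (by omega)
  have h6 : b ^ (2 * κ) * 2 ^ (2 * κ + 2) = 4 * (2 * b) ^ (2 * κ) := by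
    rw [mul_pow, pow_succ, pow_succ]
    ring
  omega

/-- **Two probes with a free index of `(2 + δ) n log₂ n` bits.** -/
theorem two_plus_delta (δ : ℝ) (hδ : 0 < δ) :
    ∃ γ : ℝ, 0 < γ ∧ ∃ C n₀ : ℕ, ∀ n U : ℕ, n₀ ≤ n → 1 ≤ U →
      (U : ℝ) ≤ (2 : ℝ) ^ ((n : ℝ) ^ γ) →
      ∃ S W H : ℕ, (S : ℝ) ≤ (n : ℝ) ^ (2 - γ) ∧ W ≤ U * n ^ C ∧
        (H : ℝ) ≤ (n : ℝ) ^ ((2 + δ) * (n : ℝ)) ∧ Solvable n U S W H 2 := by
  obtain ⟨κ, hκ⟩ := exists_nat_ge (10 / δ)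
  have hκr : (0 : ℝ) < κ := lt_of_lt_of_le (by positivity) hκ
  have hκpos : 0 < κ := by exact_mod_cast hκr
  obtain ⟨b₁, hb₁⟩ := exp_wins κ
  obtain ⟨x₁, hx₁⟩ : ∃ x, x = 2 ^ (2 * κ + 1) := ⟨_, rfl⟩
  obtain ⟨x₂, hx₂⟩ : ∃ x, x = 18 * (2 * κ + 3) ^ 2 := ⟨_, rfl⟩
  refine ⟨1 / (2 * (κ : ℝ)), by positivity, 6 * (2 * κ + 1) + 1, (b₁ + x₁ + 36 + x₂) ^ κ, ?_⟩
  intro n U hn hU hUle
  obtain ⟨b, hb1, hb2⟩ := Pool.H54.TSUM.exists_root κ hκpos n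
  have hbig : b₁ + x₁ + 36 + x₂ ≤ b := by
    have h1 : (b₁ + x₁ + 36 + x₂) ^ κ < (b + 1) ^ κ := lt_of_le_of_lt hn hb2
    have h2 := lt_of_pow_lt_pow_left₀ κ (Nat.zero_le _) h1
    omega
  have hbpos : 0 < b := by omega
  have hbr : (0 : ℝ) < b := by exact_mod_cast hbpos
  have hb36 : (36 : ℝ) ≤ b := by exact_mod_cast (by omega : 36 ≤ b)
  have hnpos : 0 < n := lt_of_lt_of_le (Nat.pow_pos hbpos) hb1
  have hnr : (0 : ℝ) < n := by exact_mod_cast hnpos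
  have hn1 : (1 : ℝ) ≤ n := by exact_mod_cast hnpos
  -- `n ^ γ` is at most the square root of `b + 1`
  have hroot : (n : ℝ) ^ (1 / (2 * (κ : ℝ))) ≤ Real.sqrt ((b : ℝ) + 1) := by
    have h1 : (n : ℝ) ≤ ((b : ℝ) + 1) ^ (κ : ℝ) := by
      rw [Real.rpow_natCast]
      exact_mod_cast hb2.le
    calc (n : ℝ) ^ (1 / (2 * (κ : ℝ))) ≤ (((b : ℝ) + 1) ^ (κ : ℝ)) ^ (1 / (2 * (κ : ℝ))) :=
          Real.rpow_le_rpow hnr.le h1 (by positivity)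
      _ = ((b : ℝ) + 1) ^ ((1 : ℝ) / 2) := by
          rw [← Real.rpow_mul (by positivity)]
          congr 1
          field_simp
      _ = Real.sqrt ((b : ℝ) + 1) := (Real.sqrt_eq_rpow _).symm
  have hsq : Real.sqrt ((b : ℝ) + 1) * Real.sqrt ((b : ℝ) + 1) = (b : ℝ) + 1 :=
    Real.mul_self_sqrt (by positivity)
  have hsq0 : 0 ≤ Real.sqrt ((b : ℝ) + 1) := Real.sqrt_nonneg _
  have hU2 : 2 * U ≤ 2 ^ (b / 2) := by
    have h1 : Real.sqrt ((b : ℝ) + 1) + 1 ≤ ((b / 2 : ℕ) : ℝ) := by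
      have h2 : (b : ℝ) ≤ 2 * ((b / 2 : ℕ) : ℝ) + 1 := by
        exact_mod_cast (by omega : b ≤ 2 * (b / 2) + 1)
      nlinarith
    have h3 : (2 : ℝ) * U ≤ 2 ^ (b / 2) := by
      calc (2 : ℝ) * U ≤ 2 * 2 ^ ((n : ℝ) ^ (1 / (2 * (κ : ℝ)))) :=
            mul_le_mul_of_nonneg_left hUle (by norm_num)
        _ = (2 : ℝ) ^ ((n : ℝ) ^ (1 / (2 * (κ : ℝ))) + 1) := by
            rw [Real.rpow_add (by norm_num), Real.rpow_one, mul_comm]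
        _ ≤ (2 : ℝ) ^ (((b / 2 : ℕ) : ℝ)) :=
            Real.rpow_le_rpow_of_exponent_le (by norm_num) (by linarith)
        _ = 2 ^ (b / 2) := Real.rpow_natCast _ _
    exact_mod_cast h3
  obtain ⟨S, W, H, hS, hW, hH, hsolv⟩ := dict_b κ b n U hκpos hb1 hb2 (by rw [← hx₁]; omega)
    (by omega) (hb₁ b (by omega)) hU hU2
  refine ⟨S, W, H, ?_, hW, ?_, hsolv⟩
  · -- space
    have h1 : (S : ℝ) * b ≤ 3 * (2 * κ + 3) * (n : ℝ) ^ 2 := by exact_mod_cast hS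
    have h2 : 3 * (2 * (κ : ℝ) + 3) * (n : ℝ) ^ (1 / (2 * (κ : ℝ))) ≤ b := by
      have h3 : 18 * (2 * (κ : ℝ) + 3) ^ 2 ≤ b := by
        exact_mod_cast (by rw [← hx₂]; omega : 18 * (2 * κ + 3) ^ 2 ≤ b)
      have h4 : 3 * (2 * (κ : ℝ) + 3) * Real.sqrt ((b : ℝ) + 1) ≤ b := by
        have h5 : (3 * (2 * (κ : ℝ) + 3) * Real.sqrt ((b : ℝ) + 1)) ^ 2 ≤ (b : ℝ) ^ 2 := by
          calc (3 * (2 * (κ : ℝ) + 3) * Real.sqrt ((b : ℝ) + 1)) ^ 2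
              = 9 * (2 * (κ : ℝ) + 3) ^ 2 *
                (Real.sqrt ((b : ℝ) + 1) * Real.sqrt ((b : ℝ) + 1)) := by ring
            _ = 9 * (2 * (κ : ℝ) + 3) ^ 2 * ((b : ℝ) + 1) := by rw [hsq]
            _ ≤ 9 * (2 * (κ : ℝ) + 3) ^ 2 * (2 * b) :=
              mul_le_mul_of_nonneg_left (by linarith) (by positivity)
            _ = 18 * (2 * (κ : ℝ) + 3) ^ 2 * b := by ring
            _ ≤ b * b := mul_le_mul_of_nonneg_right h3 hbr.le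
            _ = (b : ℝ) ^ 2 := by ring
        exact le_of_sq_le_sq h5 hbr.le
      exact le_trans (mul_le_mul_of_nonneg_left hroot (by positivity)) h4
    have h6 : (n : ℝ) ^ (2 - 1 / (2 * (κ : ℝ))) * (n : ℝ) ^ (1 / (2 * (κ : ℝ))) =
        (n : ℝ) ^ 2 := by
      rw [← Real.rpow_add hnr, sub_add_cancel]
      exact Real.rpow_natCast _ 2
    have h7 : 0 < (n : ℝ) ^ (1 / (2 * (κ : ℝ))) := Real.rpow_pos_of_pos hnr _
    have h8 : 0 < (n : ℝ) ^ (2 - 1 / (2 * (κ : ℝ))) := Real.rpow_pos_of_pos hnr _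
    have h9 : (S : ℝ) * b ≤ (n : ℝ) ^ (2 - 1 / (2 * (κ : ℝ))) * b := by
      calc (S : ℝ) * b ≤ 3 * (2 * κ + 3) * (n : ℝ) ^ 2 := h1
        _ = (n : ℝ) ^ (2 - 1 / (2 * (κ : ℝ))) *
            (3 * (2 * κ + 3) * (n : ℝ) ^ (1 / (2 * (κ : ℝ)))) := by rw [← h6]; ring
        _ ≤ (n : ℝ) ^ (2 - 1 / (2 * (κ : ℝ))) * b := mul_le_mul_of_nonneg_left h2 h8.le
    exact le_of_mul_le_mul_right h9 hbr
  · -- the index
    refine hH.trans ?_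
    have h1 : (b : ℝ) ≤ (n : ℝ) ^ (1 / (κ : ℝ)) := by
      have h2 : (b : ℝ) ^ (κ : ℝ) ≤ n := by
        rw [Real.rpow_natCast]
        exact_mod_cast hb1
      calc (b : ℝ) = ((b : ℝ) ^ (κ : ℝ)) ^ (1 / (κ : ℝ)) := by
            rw [← Real.rpow_mul hbr.le, mul_one_div_cancel hκr.ne', Real.rpow_one]
        _ ≤ (n : ℝ) ^ (1 / (κ : ℝ)) := Real.rpow_le_rpow (by positivity) h2 (by positivity)
    have h3 : (b : ℝ) ^ (10 * n) ≤ (n : ℝ) ^ (δ * (n : ℝ)) := by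
      calc (b : ℝ) ^ (10 * n) ≤ ((n : ℝ) ^ (1 / (κ : ℝ))) ^ (10 * n) :=
            pow_le_pow_left₀ hbr.le h1 _
        _ = (n : ℝ) ^ ((1 / (κ : ℝ)) * ((10 * n : ℕ) : ℝ)) := by
            rw [Real.rpow_mul hnr.le, Real.rpow_natCast]
        _ ≤ (n : ℝ) ^ (δ * (n : ℝ)) := by
            refine Real.rpow_le_rpow_of_exponent_le hn1 ?_
            push_cast
            have h4 : 10 ≤ (κ : ℝ) * δ := by
              rw [div_le_iff₀ hδ] at hκ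
              exact hκ
            have h5 : 1 / (κ : ℝ) * (10 * n) = (10 / κ) * n := by ring
            rw [h5]
            refine mul_le_mul_of_nonneg_right ?_ hnr.le
            rw [div_le_iff₀ hκr]
            linarith
    calc (b : ℝ) ^ (10 * n) * (n : ℝ) ^ (2 * n)
        ≤ (n : ℝ) ^ (δ * (n : ℝ)) * (n : ℝ) ^ (2 * n) :=
          mul_le_mul_of_nonneg_right h3 (by positivity)
      _ = (n : ℝ) ^ ((2 + δ) * (n : ℝ)) := by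
          rw [← Real.rpow_natCast (n : ℝ) (2 * n), ← Real.rpow_add hnr]
          congr 1
          push_cast
          ring

end Pool.H66.TSH
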